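import Mathlib

/-!
# Counting integer vectors in triangular ellipsoids and in weighted cross polytopes
-/

set_option autoImplicit false

open Finset

namespace Pool.Agent.H589.Count

/-- the sum of `q ^ |t|` over the integers. -/
lemma hasSum_pow_natAbs (q : ℝ) (h0 : 0 ≤ q) (h1 : q < 1) :
    HasSum (fun t : ℤ => q ^ t.natAbs) ((1 + q) / (1 - q)) := by
  have hg := hasSum_geometric_of_lt_one h0 h1
  have h2 : HasSum (fun n : ℕ => q ^ ((-((n : ℤ) + 1)).natAbs)) (q * (1 - q)⁻¹) := by
    have := hg.mul_left q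
    refine this.congr_fun ?_ |> fun h => h
    intro n
    have : (-((n : ℤ) + 1)).natAbs = n + 1 := by omega
    rw [this, pow_succ]; ring
  have h3 : HasSum (fun n : ℕ => q ^ ((n : ℤ)).natAbs) ((1 - q)⁻¹) := by
    simpa using hg
  have h4 := HasSum.of_nat_of_neg_add_one (f := fun t : ℤ => q ^ t.natAbs) h3 h2
  have : (1 - q)⁻¹ + q * (1 - q)⁻¹ = (1 + q) / (1 - q) := by
    have : (1 - q) ≠ 0 := by linarith
    field_simp
  rwa [this] at h4

lemma sum_pow_natAbs_le (q : ℝ) (h0 : 0 ≤ q) (h1 : q < 1) (A : Finset ℤ) :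
    ∑ t ∈ A, q ^ t.natAbs ≤ (1 + q) / (1 - q) :=
  sum_le_hasSum A (fun _ _ => by positivity) (hasSum_pow_natAbs q h0 h1)

/-- Gaussian sums over shifted integers. -/
lemma sum_gauss_le (l : ℝ) (hl : Real.exp (-l / 4) ≤ 1 / 2) (x : ℝ) (A : Finset ℤ) :
    ∑ t ∈ A, Real.exp (-l * ((t : ℝ) + x) ^ 2) ≤ 1 + 4 * Real.exp (-l / 4) := by
  have hl0 : 0 ≤ l := by
    by_contra h
    push Not at h
    have : 1 ≤ Real.exp (-l / 4) := Real.one_le_exp (by linarith)
    linarith
  set q := Real.exp (-l / 4) with hq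
  have hq0 : 0 < q := Real.exp_pos _
  set t0 : ℤ := round (-x) with ht0
  have hr : |(-x) - t0| ≤ 1 / 2 := abs_sub_round (-x)
  have key : ∀ t : ℤ, Real.exp (-l * ((t : ℝ) + x) ^ 2) ≤ q ^ (t - t0).natAbs := by
    intro t
    rw [hq, ← Real.exp_nat_mul]
    apply Real.exp_le_exp.mpr
    set j := (t - t0).natAbs with hj
    have hjr : (j : ℝ) = |(t : ℝ) - t0| := by
      rw [hj, Nat.cast_natAbs]; push_cast; rfl
    rcases Nat.eq_zero_or_pos j with h | h
    · rw [h]; simp only [Nat.cast_zero, zero_mul]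
      have := sq_nonneg ((t : ℝ) + x)
      nlinarith
    · have hj1 : (1 : ℝ) ≤ j := by exact_mod_cast h
      have h1 : (j : ℝ) - 1 / 2 ≤ |(t : ℝ) + x| := by
        have := abs_sub_abs_le_abs_sub ((t : ℝ) - t0) ((-x) - t0)
        have h2 : (t : ℝ) - t0 - ((-x) - t0) = t + x := by ring
        rw [h2] at this
        linarith
      have h2 : ((j : ℝ) - 1 / 2) ^ 2 ≤ ((t : ℝ) + x) ^ 2 := by
        rw [← sq_abs ((t : ℝ) + x)]
        apply pow_le_pow_left₀ (by linarith) h1
      have h3 : (j : ℝ) / 4 ≤ ((j : ℝ) - 1 / 2) ^ 2 := by nlinarith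
      nlinarith
  calc ∑ t ∈ A, Real.exp (-l * ((t : ℝ) + x) ^ 2) ≤ ∑ t ∈ A, q ^ (t - t0).natAbs :=
        sum_le_sum fun t _ => key t
    _ = ∑ s ∈ A.image (fun t => t - t0), q ^ s.natAbs := by
        rw [sum_image]
        intro a _ b _ h
        simpa using h
    _ ≤ (1 + q) / (1 - q) := sum_pow_natAbs_le q hq0.le (by linarith) _
    _ ≤ 1 + 4 * q := by
        rw [div_le_iff₀ (by linarith)]
        nlinarith

/-- Counting integer points of a triangular ellipsoid (exponential sum form). -/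
lemma sum_triangular (l : ℝ) (hl : Real.exp (-l / 4) ≤ 1 / 2) (n : ℕ)
    (h : Fin n → (Fin n → ℤ) → ℝ)
    (hh : ∀ k c c', (∀ j, j < k → c j = c' j) → h k c = h k c')
    (S : Finset (Fin n → ℤ)) :
    ∑ c ∈ S, Real.exp (-l * ∑ k, ((c k : ℝ) + h k c) ^ 2) ≤
      (1 + 4 * Real.exp (-l / 4)) ^ n := by
  induction n with
  | zero =>
    simp only [Finset.univ_eq_empty, sum_empty, mul_zero, Real.exp_zero, pow_zero, sum_const,
      nsmul_eq_mul, mul_one]
    have : S.card ≤ 1 := Finset.card_le_one_iff.mpr fun _ _ => Subsingleton.elim _ _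
    exact_mod_cast this
  | succ n ih =>
    set K := 1 + 4 * Real.exp (-l / 4) with hK
    have hKpos : 0 < K := by positivity
    -- the map to the first `n` coordinates
    let pr : (Fin (n + 1) → ℤ) → (Fin n → ℤ) := fun c => fun j => c j.castSucc
    let ext : (Fin n → ℤ) → (Fin (n + 1) → ℤ) := fun c => Fin.snoc c 0
    let h' : Fin n → (Fin n → ℤ) → ℝ := fun k c => h k.castSucc (ext c)
    have hpr : ∀ (c : Fin (n + 1) → ℤ) (j : Fin (n + 1)), j < Fin.last n →
        c j = ext (pr c) j := by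
      intro c j hj
      obtain ⟨i, rfl⟩ := Fin.exists_castSucc_eq.mpr hj.ne
      simp [ext, pr]
    have hh' : ∀ k c c', (∀ j, j < k → c j = c' j) → h' k c = h' k c' := by
      intro k c c' hc
      apply hh
      intro j hj
      have hj' : j < Fin.last n := lt_of_lt_of_le hj (Fin.le_last _)
      obtain ⟨i, rfl⟩ := Fin.exists_castSucc_eq.mpr hj'.ne
      simp only [ext, Fin.snoc_castSucc]
      exact hc i (by simpa using hj)
    have hsplit : ∀ c : Fin (n + 1) → ℤ,
        Real.exp (-l * ∑ k, ((c k : ℝ) + h k c) ^ 2) =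
          Real.exp (-l * ∑ k, ((pr c k : ℝ) + h' k (pr c)) ^ 2) *
          Real.exp (-l * ((c (Fin.last n) : ℝ) + h (Fin.last n) (ext (pr c))) ^ 2) := by
      intro c
      rw [← Real.exp_add, Fin.sum_univ_castSucc]
      congr 1
      have e1 : ∀ k : Fin n, h k.castSucc c = h' k (pr c) := by
        intro k
        apply hh
        intro j hj
        exact hpr c j (lt_of_lt_of_le hj (Fin.le_last _))
      have e2 : h (Fin.last n) c = h (Fin.last n) (ext (pr c)) := by
        apply hh
        intro j hj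
        exact hpr c j hj
      simp only [e1, e2, pr]
      ring
    calc ∑ c ∈ S, Real.exp (-l * ∑ k, ((c k : ℝ) + h k c) ^ 2)
        = ∑ b ∈ S.image pr, ∑ c ∈ S with pr c = b,
            Real.exp (-l * ∑ k, ((c k : ℝ) + h k c) ^ 2) := by
          rw [Finset.sum_fiberwise_of_maps_to]
          intro c hc
          exact mem_image_of_mem _ hc
      _ = ∑ b ∈ S.image pr, Real.exp (-l * ∑ k, ((b k : ℝ) + h' k b) ^ 2) *
            ∑ c ∈ S with pr c = b,
              Real.exp (-l * ((c (Fin.last n) : ℝ) + h (Fin.last n) (ext b)) ^ 2) := by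
          apply sum_congr rfl
          intro b _
          rw [mul_sum]
          apply sum_congr rfl
          intro c hc
          rw [mem_filter] at hc
          rw [hsplit c, hc.2]
      _ ≤ ∑ b ∈ S.image pr, Real.exp (-l * ∑ k, ((b k : ℝ) + h' k b) ^ 2) * K := by
          apply sum_le_sum
          intro b _
          apply mul_le_mul_of_nonneg_left _ (Real.exp_pos _).le
          have : ∑ c ∈ S with pr c = b,
              Real.exp (-l * ((c (Fin.last n) : ℝ) + h (Fin.last n) (ext b)) ^ 2) =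
              ∑ t ∈ ((S.filter fun c => pr c = b).image (fun c => c (Fin.last n)) : Finset ℤ),
                Real.exp (-l * ((t : ℝ) + h (Fin.last n) (ext b)) ^ 2) := by
            rw [sum_image]
            intro c hc c' hc' hcc
            simp only [coe_filter, Set.mem_ofPred_eq] at hc hc'
            funext j
            rcases Fin.eq_castSucc_or_eq_last j with ⟨i, rfl⟩ | rfl
            · have := congrFun (hc.2.trans hc'.2.symm) i
              exact this
            · exact hcc
          rw [this]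
          exact sum_gauss_le l hl _ _
      _ = (∑ b ∈ S.image pr, Real.exp (-l * ∑ k, ((b k : ℝ) + h' k b) ^ 2)) * K := by
          rw [sum_mul]
      _ ≤ K ^ n * K := by
          apply mul_le_mul_of_nonneg_right _ hKpos.le
          exact ih h' hh' _
      _ = K ^ (n + 1) := by rw [pow_succ]

/-- Counting integer points of a triangular ellipsoid. -/
lemma card_triangular (l Q : ℝ) (hl : Real.exp (-l / 4) ≤ 1 / 2) (n : ℕ)
    (h : Fin n → (Fin n → ℤ) → ℝ)
    (hh : ∀ k c c', (∀ j, j < k → c j = c' j) → h k c = h k c')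
    (S : Finset (Fin n → ℤ)) (hS : ∀ c ∈ S, ∑ k, ((c k : ℝ) + h k c) ^ 2 ≤ Q) :
    (S.card : ℝ) ≤ Real.exp (l * Q) * (1 + 4 * Real.exp (-l / 4)) ^ n := by
  have hl0 : 0 ≤ l := by
    by_contra h
    push Not at h
    have : 1 ≤ Real.exp (-l / 4) := Real.one_le_exp (by linarith)
    linarith
  have h1 := sum_triangular l hl n h hh S
  have h2 : (S.card : ℝ) * Real.exp (-l * Q) ≤
      ∑ c ∈ S, Real.exp (-l * ∑ k, ((c k : ℝ) + h k c) ^ 2) := by
    rw [← nsmul_eq_mul]
    apply card_nsmul_le_sum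
    intro c hc
    apply Real.exp_le_exp.mpr
    have := hS c hc
    nlinarith
  have h3 : (S.card : ℝ) * Real.exp (-l * Q) ≤ (1 + 4 * Real.exp (-l / 4)) ^ n := h2.trans h1
  have h4 : Real.exp (l * Q) * Real.exp (-l * Q) = 1 := by
    rw [← Real.exp_add]; simp
  calc (S.card : ℝ) = Real.exp (l * Q) * ((S.card : ℝ) * Real.exp (-l * Q)) := by
        rw [mul_left_comm, h4, mul_one]
    _ ≤ _ := by
        apply mul_le_mul_of_nonneg_left h3 (Real.exp_pos _).le

/-- Counting integer points of a weighted cross polytope. -/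
lemma card_cross (m : ℕ) (μ : Fin m → ℝ) (hμ : ∀ k, 0 < μ k) (Q : ℝ)
    (S : Finset (Fin m → ℤ)) (hS : ∀ c ∈ S, ∑ k, μ k * |(c k : ℝ)| ≤ Q) :
    (S.card : ℝ) ≤ Real.exp Q *
      ∏ k, ((1 + Real.exp (-μ k)) / (1 - Real.exp (-μ k))) := by
  classical
  have h2 : (S.card : ℝ) * Real.exp (-Q) ≤
      ∑ c ∈ S, ∏ k, Real.exp (-μ k) ^ (c k).natAbs := by
    rw [← nsmul_eq_mul]
    apply card_nsmul_le_sum
    intro c hc
    have : ∏ k, Real.exp (-μ k) ^ (c k).natAbs = Real.exp (-∑ k, μ k * |(c k : ℝ)|) := by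
      rw [← sum_neg_distrib, Real.exp_sum]
      apply prod_congr rfl
      intro k _
      rw [← Real.exp_nat_mul]
      congr 1
      rw [Nat.cast_natAbs]
      push_cast
      ring
    rw [this]
    apply Real.exp_le_exp.mpr
    linarith [hS c hc]
  have h3 : ∑ c ∈ S, ∏ k, Real.exp (-μ k) ^ (c k).natAbs ≤
      ∑ c ∈ Fintype.piFinset (fun k => S.image fun c => c k),
        ∏ k, Real.exp (-μ k) ^ (c k).natAbs := by
    apply sum_le_sum_of_subset_of_nonneg
    · intro c hc
      rw [Fintype.mem_piFinset]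
      intro k
      exact mem_image_of_mem _ hc
    · intro c _ _
      positivity
  have h4 : ∑ c ∈ Fintype.piFinset (fun k => S.image fun c => c k),
        ∏ k, Real.exp (-μ k) ^ (c k).natAbs =
      ∏ k, ∑ t ∈ S.image (fun c => c k), Real.exp (-μ k) ^ t.natAbs := by
    rw [Finset.prod_univ_sum]
  have h5 : ∏ k, ∑ t ∈ S.image (fun c => c k), Real.exp (-μ k) ^ t.natAbs ≤
      ∏ k, ((1 + Real.exp (-μ k)) / (1 - Real.exp (-μ k))) := by
    apply prod_le_prod
    · intro k _
      positivity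
    · intro k _
      exact sum_pow_natAbs_le _ (Real.exp_pos _).le (by
        rw [Real.exp_lt_one_iff]; linarith [hμ k]) _
  have h6 : (S.card : ℝ) * Real.exp (-Q) ≤
      ∏ k, ((1 + Real.exp (-μ k)) / (1 - Real.exp (-μ k))) := by
    calc _ ≤ _ := h2
      _ ≤ _ := h3
      _ = _ := h4
      _ ≤ _ := h5
  have h7 : Real.exp Q * Real.exp (-Q) = 1 := by
    rw [← Real.exp_add]; simp
  calc (S.card : ℝ) = Real.exp Q * ((S.card : ℝ) * Real.exp (-Q)) := by
        rw [mul_left_comm, h7, mul_one]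
    _ ≤ _ := by
        apply mul_le_mul_of_nonneg_left h6 (Real.exp_pos _).le

end Pool.Agent.H589.Count
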