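import Mathlib

/-!
# Rounding real vectors to integer vectors
-/

set_option autoImplicit false

open Finset

namespace Pool.Agent.H589.Count

lemma exp_le_add_exp_sq (x : ℝ) : Real.exp x ≤ x + Real.exp (x ^ 2) := by
  have h2 : x ^ 2 + 1 ≤ Real.exp (x ^ 2) := Real.add_one_le_exp _
  rcases le_or_gt |x| 1 with h | h
  · have := Real.abs_exp_sub_one_sub_id_le h
    have := (abs_le.mp this).2
    linarith
  · rcases le_or_gt 0 x with hx | hx
    · rw [abs_of_nonneg hx] at h
      have : Real.exp x ≤ Real.exp (x ^ 2) := Real.exp_le_exp.mpr (by nlinarith)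
      linarith
    · rw [abs_of_neg hx] at h
      have : Real.exp x ≤ 1 := Real.exp_le_one_iff.mpr hx.le
      nlinarith

lemma two_point (p t : ℝ) (h0 : 0 ≤ p) (h1 : p ≤ 1) :
    p * Real.exp (t * (1 - p)) + (1 - p) * Real.exp (t * (-p)) ≤ Real.exp (t ^ 2) := by
  have a := exp_le_add_exp_sq (t * (1 - p))
  have b := exp_le_add_exp_sq (t * (-p))
  have a' : Real.exp ((t * (1 - p)) ^ 2) ≤ Real.exp (t ^ 2) := by
    apply Real.exp_le_exp.mpr
    have : (1 - p) ^ 2 ≤ 1 := by nlinarith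
    nlinarith [sq_nonneg t]
  have b' : Real.exp ((t * (-p)) ^ 2) ≤ Real.exp (t ^ 2) := by
    apply Real.exp_le_exp.mpr
    have : p ^ 2 ≤ 1 := by nlinarith
    nlinarith [sq_nonneg t]
  have h3 : p * Real.exp (t * (1 - p)) ≤ p * (t * (1 - p) + Real.exp (t ^ 2)) :=
    mul_le_mul_of_nonneg_left (by linarith) h0
  have h4 : (1 - p) * Real.exp (t * (-p)) ≤ (1 - p) * (t * (-p) + Real.exp (t ^ 2)) :=
    mul_le_mul_of_nonneg_left (by linarith) (by linarith)
  nlinarith

lemma abs_floor_avg (x : ℝ) :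
    (1 - Int.fract x) * |((⌊x⌋ : ℤ) : ℝ)| + Int.fract x * |((⌊x⌋ + 1 : ℤ) : ℝ)| = |x| := by
  have hx : x = ⌊x⌋ + Int.fract x := (Int.floor_add_fract x).symm
  have hf0 := Int.fract_nonneg x
  have hf1 := Int.fract_lt_one x
  rcases le_or_gt 0 x with h | h
  · have h1 : (0 : ℝ) ≤ ⌊x⌋ := by exact_mod_cast Int.floor_nonneg.mpr h
    rw [abs_of_nonneg h, abs_of_nonneg h1, abs_of_nonneg (by push_cast; linarith)]
    push_cast
    nlinarith
  · have h1 : ((⌊x⌋ : ℤ) : ℝ) ≤ -1 := by
      have : ⌊x⌋ < 0 := Int.floor_lt.mpr (by simpa using h)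
      have : ⌊x⌋ ≤ -1 := by omega
      exact_mod_cast this
    rw [abs_of_neg h, abs_of_nonpos (by linarith), abs_of_nonpos (by push_cast; linarith)]
    push_cast
    nlinarith

/-- Derandomised rounding. -/
lemma rounding_potential {J : Type*} (T : Finset J) (x : ℕ → ℝ) (μ : ℕ → ℝ)
    (c : J → ℕ → ℝ) (hc : ∀ j k, |c j k| ≤ 1) (l : ℝ) (s : Finset ℕ) :
    ∀ w : J → ℝ, (∀ j, 0 ≤ w j) →
    ∃ n : ℕ → ℤ, (∀ k, |(n k : ℝ) - x k| ≤ 1) ∧
      ∑ k ∈ s, μ k * |(n k : ℝ)| + ∑ j ∈ T, w j * Real.exp (l * ∑ k ∈ s, ((n k : ℝ) - x k) * c j k) ≤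
      ∑ k ∈ s, μ k * |x k| + (∑ j ∈ T, w j) * Real.exp (l ^ 2 * s.card) := by
  classical
  induction s using Finset.induction_on with
  | empty =>
    intro w _
    refine ⟨fun k => ⌊x k⌋, fun k => ?_, by simp⟩
    rw [abs_le]
    constructor
    · linarith [Int.lt_floor_add_one (x k)]
    · linarith [Int.floor_le (x k)]
  | insert a s ha ih =>
    intro w hw
    set p := Int.fract (x a) with hp
    have hp0 : 0 ≤ p := Int.fract_nonneg _
    have hp1 : p ≤ 1 := (Int.fract_lt_one _).le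
    have hxa : x a = ⌊x a⌋ + p := (Int.floor_add_fract (x a)).symm
    set E := Real.exp (l ^ 2 * s.card) with hE
    have hEpos : 0 < E := Real.exp_pos _
    -- value of a choice
    let V : ℤ → ℝ := fun b => μ a * |(b : ℝ)| +
      (∑ j ∈ T, w j * Real.exp (l * (((b : ℝ) - x a) * c j a))) * E
    have havg : (1 - p) * V ⌊x a⌋ + p * V (⌊x a⌋ + 1) ≤
        μ a * |x a| + (∑ j ∈ T, w j) * Real.exp (l ^ 2 * (insert a s).card) := by
      have e1 := abs_floor_avg (x a)
      rw [← hp] at e1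
      have e2 : (1 - p) * (∑ j ∈ T, w j * Real.exp (l * (((⌊x a⌋ : ℝ) - x a) * c j a))) +
          p * (∑ j ∈ T, w j * Real.exp (l * ((((⌊x a⌋ + 1 : ℤ) : ℝ) - x a) * c j a))) ≤
          (∑ j ∈ T, w j) * Real.exp (l ^ 2) := by
        rw [mul_sum, mul_sum, ← sum_add_distrib, sum_mul]
        apply sum_le_sum
        intro j _
        have t1 := two_point p (l * c j a) hp0 hp1
        have t2 : Real.exp ((l * c j a) ^ 2) ≤ Real.exp (l ^ 2) := by
          apply Real.exp_le_exp.mpr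
          have : (c j a) ^ 2 ≤ 1 := by
            rw [← sq_abs]
            have := hc j a
            have := abs_nonneg (c j a)
            nlinarith
          nlinarith [sq_nonneg l]
        have t3 : l * (((⌊x a⌋ : ℝ) - x a) * c j a) = l * c j a * (-p) := by
          rw [hp, ← Int.self_sub_floor]; ring
        have t4 : l * ((((⌊x a⌋ + 1 : ℤ) : ℝ) - x a) * c j a) = l * c j a * (1 - p) := by
          rw [hp, ← Int.self_sub_floor]; push_cast; ring
        rw [t3, t4]
        have t5 : (1 - p) * (w j * Real.exp (l * c j a * (-p))) +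
            p * (w j * Real.exp (l * c j a * (1 - p))) =
            w j * (p * Real.exp (l * c j a * (1 - p)) +
              (1 - p) * Real.exp (l * c j a * (-p))) := by ring
        rw [t5]
        exact mul_le_mul_of_nonneg_left (t1.trans t2) (hw j)
      have e3 : Real.exp (l ^ 2 * (insert a s).card) = Real.exp (l ^ 2) * E := by
        rw [hE, ← Real.exp_add, card_insert_of_notMem ha]
        congr 1
        push_cast
        ring
      rw [e3]
      simp only [V]
      have e4 : (1 - p) * (μ a * |((⌊x a⌋ : ℤ) : ℝ)| +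
            (∑ j ∈ T, w j * Real.exp (l * ((((⌊x a⌋ : ℤ) : ℝ) - x a) * c j a))) * E) +
          p * (μ a * |((⌊x a⌋ + 1 : ℤ) : ℝ)| +
            (∑ j ∈ T, w j * Real.exp (l * ((((⌊x a⌋ + 1 : ℤ) : ℝ) - x a) * c j a))) * E) =
          μ a * ((1 - p) * |((⌊x a⌋ : ℤ) : ℝ)| + p * |((⌊x a⌋ + 1 : ℤ) : ℝ)|) +
          ((1 - p) * (∑ j ∈ T, w j * Real.exp (l * (((⌊x a⌋ : ℝ) - x a) * c j a))) +
          p * (∑ j ∈ T, w j * Real.exp (l * ((((⌊x a⌋ + 1 : ℤ) : ℝ) - x a) * c j a)))) * E := by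
        ring
      rw [e4, e1]
      have := mul_le_mul_of_nonneg_right e2 hEpos.le
      linarith
    -- choose
    have hchoice : ∃ b : ℤ, |(b : ℝ) - x a| ≤ 1 ∧ V b ≤
        μ a * |x a| + (∑ j ∈ T, w j) * Real.exp (l ^ 2 * (insert a s).card) := by
      by_contra hcon
      push Not at hcon
      have h1 := hcon ⌊x a⌋ (by
        rw [abs_le]; constructor
        · linarith [Int.lt_floor_add_one (x a)]
        · linarith [Int.floor_le (x a)])
      have h2 := hcon (⌊x a⌋ + 1) (by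
        push_cast
        rw [abs_le]; constructor
        · linarith [Int.lt_floor_add_one (x a)]
        · linarith [Int.floor_le (x a)])
      rcases lt_or_ge p (1 / 2) with h | h
      · have : (1 - p) * (μ a * |x a| + (∑ j ∈ T, w j) * Real.exp (l ^ 2 * (insert a s).card)) <
          (1 - p) * V ⌊x a⌋ := mul_lt_mul_of_pos_left h1 (by linarith)
        have : p * (μ a * |x a| + (∑ j ∈ T, w j) * Real.exp (l ^ 2 * (insert a s).card)) ≤
          p * V (⌊x a⌋ + 1) := mul_le_mul_of_nonneg_left h2.le hp0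
        linarith
      · have : (1 - p) * (μ a * |x a| + (∑ j ∈ T, w j) * Real.exp (l ^ 2 * (insert a s).card)) ≤
          (1 - p) * V ⌊x a⌋ := mul_le_mul_of_nonneg_left h1.le (by linarith)
        have : p * (μ a * |x a| + (∑ j ∈ T, w j) * Real.exp (l ^ 2 * (insert a s).card)) <
          p * V (⌊x a⌋ + 1) := mul_lt_mul_of_pos_left h2 (by linarith)
        linarith
    obtain ⟨b, hb1, hb2⟩ := hchoice
    obtain ⟨n, hn1, hn2⟩ := ih (fun j => w j * Real.exp (l * (((b : ℝ) - x a) * c j a)))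
      (fun j => mul_nonneg (hw j) (Real.exp_pos _).le)
    refine ⟨Function.update n a b, ?_, ?_⟩
    · intro k
      by_cases hk : k = a
      · subst hk; simpa using hb1
      · simpa [Function.update_of_ne hk] using hn1 k
    · rw [sum_insert ha, sum_insert ha]
      have e1 : ∑ k ∈ s, μ k * |((Function.update n a b k : ℤ) : ℝ)| =
          ∑ k ∈ s, μ k * |(n k : ℝ)| := by
        apply sum_congr rfl
        intro k hk
        have : k ≠ a := fun h => ha (h ▸ hk)
        rw [Function.update_of_ne this]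
      have e2 : ∀ j, ∑ k ∈ insert a s, (((Function.update n a b k : ℤ) : ℝ) - x k) * c j k =
          ((b : ℝ) - x a) * c j a + ∑ k ∈ s, ((n k : ℝ) - x k) * c j k := by
        intro j
        rw [sum_insert ha]
        congr 1
        · simp
        · apply sum_congr rfl
          intro k hk
          have : k ≠ a := fun h => ha (h ▸ hk)
          rw [Function.update_of_ne this]
      rw [e1]
      simp only [e2, Function.update_self]
      have e3 : ∑ j ∈ T, w j * Real.exp (l * (((b : ℝ) - x a) * c j a +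
            ∑ k ∈ s, ((n k : ℝ) - x k) * c j k)) =
          ∑ j ∈ T, w j * Real.exp (l * (((b : ℝ) - x a) * c j a)) *
            Real.exp (l * ∑ k ∈ s, ((n k : ℝ) - x k) * c j k) := by
        apply sum_congr rfl
        intro j _
        rw [mul_assoc, ← Real.exp_add, mul_add]
      rw [e3]
      simp only [V] at hb2
      linarith

/-- Rounding with small cost and small one-sided errors. -/
lemma rounding {J : Type*} (T : Finset J) (x : ℕ → ℝ) (μ : ℕ → ℝ) (hμ : ∀ k, 0 ≤ μ k)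
    (c : J → ℕ → ℝ) (hc : ∀ j k, |c j k| ≤ 1) (l : ℝ) (hl : 0 < l) (s : Finset ℕ)
    (X σ : ℝ) (hX : 0 < X) (hxX : ∑ k ∈ s, μ k * |x k| ≤ X)
    (hσ : l ^ 2 * s.card + Real.log T.card ≤ l * σ) :
    ∃ n : ℕ → ℤ, (∀ k, |(n k : ℝ) - x k| ≤ 1) ∧ ∑ k ∈ s, μ k * |(n k : ℝ)| ≤ 2 * X ∧
      ∀ j ∈ T, ∑ k ∈ s, ((n k : ℝ) - x k) * c j k ≤ σ + 1 / l := by
  obtain ⟨n, hn1, hn2⟩ := rounding_potential T x μ c hc l s
    (fun _ => X * Real.exp (-(l * σ))) (fun _ => by positivity)
  have hB : (∑ j ∈ T, X * Real.exp (-(l * σ))) * Real.exp (l ^ 2 * s.card) ≤ X := by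
    rw [sum_const, nsmul_eq_mul]
    rcases Nat.eq_zero_or_pos T.card with h0 | h0
    · rw [h0]; simp [hX.le]
    · have hT : (0 : ℝ) < T.card := by exact_mod_cast h0
      have : (T.card : ℝ) * Real.exp (-(l * σ)) * Real.exp (l ^ 2 * s.card) ≤ 1 := by
        nth_rewrite 1 [← Real.exp_log hT]
        rw [← Real.exp_add, ← Real.exp_add]
        apply Real.exp_le_one_iff.mpr
        linarith
      calc (T.card : ℝ) * (X * Real.exp (-(l * σ))) * Real.exp (l ^ 2 * s.card) =
          X * ((T.card : ℝ) * Real.exp (-(l * σ)) * Real.exp (l ^ 2 * s.card)) := by ring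
        _ ≤ X * 1 := mul_le_mul_of_nonneg_left this hX.le
        _ = X := mul_one X
  have htot : ∑ k ∈ s, μ k * |(n k : ℝ)| +
      ∑ j ∈ T, X * Real.exp (-(l * σ)) * Real.exp (l * ∑ k ∈ s, ((n k : ℝ) - x k) * c j k) ≤
      2 * X := by linarith
  have hnn : 0 ≤ ∑ k ∈ s, μ k * |(n k : ℝ)| :=
    sum_nonneg fun k _ => mul_nonneg (hμ k) (abs_nonneg _)
  have hnn2 : 0 ≤ ∑ j ∈ T, X * Real.exp (-(l * σ)) *
      Real.exp (l * ∑ k ∈ s, ((n k : ℝ) - x k) * c j k) :=
    sum_nonneg fun j _ => by positivity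
  refine ⟨n, hn1, by linarith, ?_⟩
  intro j hj
  have h1 : X * Real.exp (-(l * σ)) * Real.exp (l * ∑ k ∈ s, ((n k : ℝ) - x k) * c j k) ≤ 2 * X := by
    have := single_le_sum (f := fun j => X * Real.exp (-(l * σ)) *
      Real.exp (l * ∑ k ∈ s, ((n k : ℝ) - x k) * c j k)) (fun i _ => by positivity) hj
    linarith
  have h2 : Real.exp (l * (∑ k ∈ s, ((n k : ℝ) - x k) * c j k) - l * σ) ≤ 2 := by
    have e : X * Real.exp (-(l * σ)) * Real.exp (l * ∑ k ∈ s, ((n k : ℝ) - x k) * c j k) =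
        X * Real.exp (l * (∑ k ∈ s, ((n k : ℝ) - x k) * c j k) - l * σ) := by
      rw [mul_assoc, ← Real.exp_add]
      congr 2
      ring
    rw [e] at h1
    have : X * Real.exp (l * (∑ k ∈ s, ((n k : ℝ) - x k) * c j k) - l * σ) ≤ X * 2 := by
      linarith
    exact le_of_mul_le_mul_left this hX
  have h3 : l * (∑ k ∈ s, ((n k : ℝ) - x k) * c j k) - l * σ ≤ 1 := by
    have := Real.add_one_le_exp (l * (∑ k ∈ s, ((n k : ℝ) - x k) * c j k) - l * σ)
    linarith
  have h4 : l * (∑ k ∈ s, ((n k : ℝ) - x k) * c j k) ≤ l * (σ + 1 / l) := by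
    have : l * (σ + 1 / l) = l * σ + 1 := by field_simp
    linarith
  exact le_of_mul_le_mul_left h4 hl

end Pool.Agent.H589.Count
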