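import Pool.Agent.H589.Count.Outer
import Pool.Agent.H589.Count.Lattice
import Pool.Agent.H589.Count.Round

/-!
# The number of separable integer polynomials of bounded Mahler measure: the master inequality
-/

set_option autoImplicit false

open Polynomial Finset

namespace Pool.Agent.H589.Count

/-- grid points of the circle. -/
noncomputable def gp (J j : ℕ) : ℂ := Complex.exp (Complex.I * ((2 * Real.pi * j / J : ℝ) : ℂ))

lemma norm_exp_I (x : ℝ) : ‖Complex.exp (Complex.I * (x : ℂ))‖ = 1 := by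
  rw [mul_comm, Complex.norm_exp_ofReal_mul_I]

lemma gp_norm (J j : ℕ) : ‖gp J j‖ = 1 := norm_exp_I _

lemma exists_gp (J : ℕ) (hJ : 0 < J) (z : ℂ) (hz : ‖z‖ = 1) :
    ∃ j < J, ‖z - gp J j‖ ≤ 2 * Real.pi / J := by
  have hpi := Real.pi_pos
  have hJ' : (0 : ℝ) < J := by exact_mod_cast hJ
  obtain ⟨θ, hθ0, hθ1, hθ⟩ : ∃ θ : ℝ, 0 ≤ θ ∧ θ < 2 * Real.pi ∧
      z = Complex.exp (Complex.I * (θ : ℂ)) := by
    have h1 : z = Complex.exp (Complex.I * (z.arg : ℂ)) := by
      have := Complex.norm_mul_exp_arg_mul_I z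
      rw [hz] at this
      simp only [Complex.ofReal_one, one_mul] at this
      rw [mul_comm]; exact this.symm
    rcases le_or_gt 0 z.arg with h | h
    · exact ⟨z.arg, h, by linarith [Complex.arg_le_pi z], h1⟩
    · refine ⟨z.arg + 2 * Real.pi, by linarith [Complex.neg_pi_lt_arg z], by linarith, ?_⟩
      have h2 : Complex.exp (Complex.I * (2 * (Real.pi : ℂ))) = 1 := by
        rw [show Complex.I * (2 * (Real.pi : ℂ)) = 2 * (Real.pi : ℂ) * Complex.I by ring]
        exact Complex.exp_two_pi_mul_I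
      push_cast
      rw [mul_add, Complex.exp_add, h2, mul_one]
      exact h1
  set j : ℕ := ⌊θ * J / (2 * Real.pi)⌋₊ with hj
  have h0 : 0 ≤ θ * J / (2 * Real.pi) := by positivity
  have hj1 : (j : ℝ) ≤ θ * J / (2 * Real.pi) := Nat.floor_le h0
  have hj2 : θ * J / (2 * Real.pi) < j + 1 := Nat.lt_floor_add_one _
  refine ⟨j, ?_, ?_⟩
  · have : (j : ℝ) < J := by
      refine lt_of_le_of_lt hj1 ?_
      rw [div_lt_iff₀ (by positivity)]
      nlinarith
    exact_mod_cast this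
  · rw [hθ]
    unfold gp
    have e : Complex.exp (Complex.I * (θ : ℂ)) -
        Complex.exp (Complex.I * ((2 * Real.pi * j / J : ℝ) : ℂ)) =
        Complex.exp (Complex.I * ((2 * Real.pi * j / J : ℝ) : ℂ)) *
        (Complex.exp (Complex.I * ((θ - 2 * Real.pi * j / J : ℝ) : ℂ)) - 1) := by
      rw [mul_sub, ← Complex.exp_add, mul_one]
      congr 2
      push_cast
      ring
    rw [e, norm_mul, norm_exp_I, one_mul]
    refine Real.norm_exp_I_mul_ofReal_sub_one_le.trans ?_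
    rw [Real.norm_eq_abs, abs_le]
    rw [le_div_iff₀ (by positivity)] at hj1
    rw [div_lt_iff₀ (by positivity)] at hj2
    constructor
    · have : 2 * Real.pi * j / J ≤ θ := by
        rw [div_le_iff₀ hJ']; linarith
      have : 0 < 2 * Real.pi / J := by positivity
      linarith
    · have : θ ≤ 2 * Real.pi * j / J + 2 * Real.pi / J := by
        rw [← add_div, le_div_iff₀ hJ']; linarith
      linarith

lemma norm_pow_sub_pow_le (z w : ℂ) (hz : ‖z‖ = 1) (hw : ‖w‖ = 1) (k : ℕ) :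
    ‖z ^ k - w ^ k‖ ≤ k * ‖z - w‖ := by
  induction k with
  | zero => simp
  | succ k ih =>
    have e : z ^ (k + 1) - w ^ (k + 1) = z ^ k * (z - w) + (z ^ k - w ^ k) * w := by ring
    rw [e]
    refine (norm_add_le _ _).trans ?_
    rw [norm_mul, norm_mul, norm_pow, hz, hw, one_pow]
    push_cast
    linarith

/-- From the grid to the circle. -/
lemma grid_to_circle (m J : ℕ) (hJ0 : 0 < J) (hJ : 2 * Real.pi * m ^ 2 ≤ J) (e : ℕ → ℝ)
    (he : ∀ k, |e k| ≤ 1) (B : ℝ)
    (hB : ∀ j ∈ range J, ∑ k ∈ Icc 1 m, e k * ((gp J j) ^ k).re ≤ B)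
    (z : ℂ) (hz : ‖z‖ = 1) : ∑ k ∈ Icc 1 m, e k * (z ^ k).re ≤ B + 1 := by
  obtain ⟨j, hj, hzj⟩ := exists_gp J hJ0 z hz
  have h1 := hB j (mem_range.mpr hj)
  have hJ' : (0 : ℝ) < J := by exact_mod_cast hJ0
  have h2 : ∑ k ∈ Icc 1 m, e k * (z ^ k).re - ∑ k ∈ Icc 1 m, e k * ((gp J j) ^ k).re ≤ 1 := by
    rw [← sum_sub_distrib]
    calc ∑ k ∈ Icc 1 m, (e k * (z ^ k).re - e k * ((gp J j) ^ k).re)
        ≤ ∑ k ∈ Icc 1 m, (m : ℝ) * (2 * Real.pi / J) := by
          apply sum_le_sum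
          intro k hk
          have hk2 : (k : ℝ) ≤ m := by exact_mod_cast (mem_Icc.mp hk).2
          rw [← mul_sub]
          calc e k * ((z ^ k).re - ((gp J j) ^ k).re)
              ≤ |e k * ((z ^ k).re - ((gp J j) ^ k).re)| := le_abs_self _
            _ = |e k| * |(z ^ k - (gp J j) ^ k).re| := by rw [abs_mul, Complex.sub_re]
            _ ≤ 1 * (k * (2 * Real.pi / J)) := by
                apply mul_le_mul (he k) _ (abs_nonneg _) zero_le_one
                refine (Complex.abs_re_le_norm _).trans ?_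
                refine (norm_pow_sub_pow_le z _ hz (gp_norm J j) k).trans ?_
                exact mul_le_mul_of_nonneg_left hzj (Nat.cast_nonneg k)
            _ ≤ _ := by
                rw [one_mul]
                apply mul_le_mul_of_nonneg_right hk2
                have := Real.pi_pos
                positivity
      _ = (m : ℝ) * ((m : ℝ) * (2 * Real.pi / J)) := by
          rw [sum_const, Nat.card_Icc, nsmul_eq_mul]
          simp
      _ = 2 * Real.pi * m ^ 2 / J := by ring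
      _ ≤ 1 := by rw [div_le_one hJ']; exact hJ
  linarith

/-- The choice of the class of a polynomial. -/
lemma exists_label (f : ℤ[X]) (hn : (cx f).roots.Nodup) (r : ℝ) (h0 : 0 < r) (h1 : r < 1)
    (m J : ℕ) (hJ0 : 0 < J) (hJ : 2 * Real.pi * m ^ 2 ≤ J) (η l σ X : ℝ) (hη : 0 < η)
    (hl : 0 < l) (hX : 0 < X) (μ : ℕ → ℝ) (hμ : ∀ k, 0 ≤ μ k)
    (hxX : ∑ k ∈ Icc 1 m, μ k * |yy f r k / η| ≤ X)
    (hσ : l ^ 2 * m + Real.log J ≤ l * σ) :
    ∃ n : ℕ → ℤ, ∑ k ∈ Icc 1 m, μ k * |(n k : ℝ)| ≤ 2 * X ∧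
      ∀ z : ℂ, ‖z‖ = 1 → ‖(cx f).eval z‖ ≤ (cx f).mahlerMeasure *
        Real.exp (f.natDegree * (-Real.log r) / 2 +
          f.natDegree * r ^ (m + 1) / ((m + 1) * (1 - r)) + η * (σ + 1 / l + 1) -
          ∑ k ∈ Icc 1 m, (η * n k) * (z ^ k).re) := by
  obtain ⟨n, hn1, hn2, hn3⟩ := rounding (range J) (fun k => yy f r k / η) μ hμ
    (fun j k => ((gp J j) ^ k).re) (fun j k => by
      refine (Complex.abs_re_le_norm _).trans ?_
      rw [norm_pow, gp_norm, one_pow]) l hl (Icc 1 m) X σ hX hxX (by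
        rw [card_range, Nat.card_Icc]
        simpa using hσ)
  refine ⟨n, hn2, ?_⟩
  intro z hz
  refine (norm_eval_le f hn r h0 h1 m z hz).trans ?_
  apply mul_le_mul_of_nonneg_left _ (mahlerMeasure_nonneg _)
  apply Real.exp_le_exp.mpr
  have hc := grid_to_circle m J hJ0 hJ (fun k => (n k : ℝ) - yy f r k / η) hn1 (σ + 1 / l)
    hn3 z hz
  have e1 : ∑ k ∈ range (m + 1), yy f r k * (z ^ k).re = ∑ k ∈ Icc 1 m, yy f r k * (z ^ k).re := by
    have : range (m + 1) = insert 0 (Icc 1 m) := by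
      ext k; simp only [mem_range, mem_insert, mem_Icc]; omega
    rw [this, sum_insert (by simp)]
    have : yy f r 0 = 0 := by simp [yy]
    rw [this, zero_mul, zero_add]
  rw [e1]
  have e2 : ∑ k ∈ Icc 1 m, ((n k : ℝ) - yy f r k / η) * (z ^ k).re =
      (∑ k ∈ Icc 1 m, (η * n k) * (z ^ k).re - ∑ k ∈ Icc 1 m, yy f r k * (z ^ k).re) / η := by
    rw [← sum_sub_distrib, sum_div]
    apply sum_congr rfl
    intro k _
    field_simp
  rw [e2, div_le_iff₀ hη] at hc
  linarith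

/-- Parseval's inequality for a polynomial bounded on the circle. -/
lemma sum_sq_coeff_le (P : ℂ[X]) (B : ℝ) (h : ∀ z : ℂ, ‖z‖ = 1 → ‖P.eval z‖ ≤ B)
    (s : Finset ℕ) : ∑ i ∈ s, ‖P.coeff i‖ ^ 2 ≤ B ^ 2 := by
  have hB : 0 ≤ B := (norm_nonneg _).trans (h 1 (by simp))
  have h1 : ∑ i ∈ P.support, ‖P.coeff i‖ ^ 2 ≤ B ^ 2 := by
    rw [sum_sq_norm_coeff_eq_circleAverage]
    apply Real.circleAverage_mono_on_of_le_circle
    · apply ContinuousOn.circleIntegrable'
      fun_prop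
    · intro x hx
      have hx' : ‖x‖ = 1 := by simpa using hx
      exact pow_le_pow_left₀ (norm_nonneg _) (h x hx') 2
  have h2 : ∑ i ∈ s, ‖P.coeff i‖ ^ 2 ≤ ∑ i ∈ s ∪ P.support, ‖P.coeff i‖ ^ 2 :=
    sum_le_sum_of_subset_of_nonneg subset_union_left fun _ _ _ => by positivity
  have h3 : ∑ i ∈ s ∪ P.support, ‖P.coeff i‖ ^ 2 = ∑ i ∈ P.support, ‖P.coeff i‖ ^ 2 := by
    symm
    apply sum_subset subset_union_right
    intro i _ hi
    rw [notMem_support_iff.mp hi]; simp
  linarith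

/-- The number of integer polynomials with `‖f(z)‖ ≤ B exp (-∑ w_k Re z^k)` on the circle. -/
lemma card_fiber (d : ℕ) (s : Finset ℕ) (hs : 0 ∉ s) (w : ℕ → ℝ) (B L : ℝ)
    (hL : Real.exp (-L / 4) ≤ 1 / 2) (S : Finset ℤ[X])
    (hd : ∀ f ∈ S, f.natDegree ≤ d)
    (hS : ∀ f ∈ S, ∀ z : ℂ, ‖z‖ = 1 →
      ‖(cx f).eval z‖ ≤ B * Real.exp (-∑ k ∈ s, w k * (z ^ k).re)) :
    (S.card : ℝ) ≤ Real.exp (L * (2 * B) ^ 2) * (1 + 4 * Real.exp (-L / 4)) ^ (d + 1) := by
  obtain ⟨E, hE0, hE⟩ := exists_mult w s hs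
  let cf : ℤ[X] → (Fin (d + 1) → ℤ) := fun f k => f.coeff k
  have hinj : Set.InjOn cf S := by
    intro f hf g hg hfg
    ext i
    rcases Nat.lt_or_ge i (d + 1) with h | h
    · exact congrFun hfg ⟨i, h⟩
    · rw [coeff_eq_zero_of_natDegree_lt (lt_of_le_of_lt (hd f hf) (by omega)),
        coeff_eq_zero_of_natDegree_lt (lt_of_le_of_lt (hd g hg) (by omega))]
  rw [← card_image_of_injOn hinj]
  let h : Fin (d + 1) → (Fin (d + 1) → ℤ) → ℝ := fun k c =>
    ∑ j : Fin (d + 1), if j < k then (c j : ℝ) * (E.coeff (k - j)).re else 0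
  apply card_triangular L ((2 * B) ^ 2) hL (d + 1) h
  · intro k c c' hc
    apply sum_congr rfl
    intro j _
    split_ifs with hj
    · rw [hc j hj]
    · rfl
  · intro c hc
    obtain ⟨f, hf, rfl⟩ := mem_image.mp hc
    have hcoef : ∀ k : Fin (d + 1), ((cf f k : ℝ) + h k (cf f)) = ((cx f * E).coeff k).re := by
      intro k
      rw [coeff_mul, Finset.Nat.sum_antidiagonal_eq_sum_range_succ_mk, Complex.re_sum,
        sum_range_succ, Nat.sub_self, hE0, add_comm]
      congr 1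
      · simp only [h, cf, Fin.lt_def]
        rw [Fin.sum_univ_eq_sum_range (fun j => if j < (k : ℕ) then
          (f.coeff j : ℝ) * (E.coeff (k - j)).re else 0) (d + 1)]
        rw [← sum_filter]
        have : (range (d + 1)).filter (fun j => j < (k : ℕ)) = range k := by
          ext j; simp only [mem_filter, mem_range]; have := k.2; omega
        rw [this]
        apply sum_congr rfl
        intro j _
        rw [coeff_map, eq_intCast, ← Complex.ofReal_intCast, Complex.re_ofReal_mul]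
      · simp [cf]
    have hb : ∀ z : ℂ, ‖z‖ = 1 → ‖(cx f * E).eval z‖ ≤ 2 * B := by
      intro z hz
      rw [eval_mul, norm_mul]
      have h1 := hS f hf z hz
      have h2 := hE z hz
      calc ‖(cx f).eval z‖ * ‖E.eval z‖ ≤
            (B * Real.exp (-∑ k ∈ s, w k * (z ^ k).re)) *
            (2 * Real.exp (∑ k ∈ s, w k * (z ^ k).re)) :=
              mul_le_mul h1 h2 (norm_nonneg _) ((norm_nonneg _).trans h1)
        _ = 2 * B * (Real.exp (-∑ k ∈ s, w k * (z ^ k).re) *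
            Real.exp (∑ k ∈ s, w k * (z ^ k).re)) := by ring
        _ = 2 * B := by rw [← Real.exp_add]; simp
    have hp := sum_sq_coeff_le (cx f * E) (2 * B) hb (range (d + 1))
    rw [← Fin.sum_univ_eq_sum_range (fun i => ‖(cx f * E).coeff i‖ ^ 2)] at hp
    refine le_trans ?_ hp
    apply sum_le_sum
    intro k _
    rw [hcoef k, ← sq_abs]
    exact pow_le_pow_left₀ (abs_nonneg _) (Complex.abs_re_le_norm _) 2

/-- The master inequality. -/
theorem card_separable_le (d : ℕ) (T r : ℝ) (hT : 0 ≤ T) (h0 : 0 < r) (h1 : r < 1)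
    (m J : ℕ) (hJ0 : 0 < J) (hJ : 2 * Real.pi * m ^ 2 ≤ J) (η l σ X A L : ℝ) (hη : 0 < η)
    (hl : 0 < l) (hX : 0 < X) (μ : ℕ → ℝ) (hμ : ∀ k, 0 < μ k)
    (hσ : l ^ 2 * m + Real.log J ≤ l * σ)
    (hA : d * (-Real.log r) / 2 + d * r ^ (m + 1) / ((m + 1) * (1 - r)) +
      η * (σ + 1 / l + 1) ≤ A)
    (hL : Real.exp (-L / 4) ≤ 1 / 2) (S : Finset ℤ[X])
    (hn : ∀ f ∈ S, (cx f).roots.Nodup)
    (hd : ∀ f ∈ S, f.natDegree ≤ d) (hM : ∀ f ∈ S, (cx f).mahlerMeasure ≤ T)
    (hxX : ∀ f ∈ S, ∑ k ∈ Icc 1 m, μ k * |yy f r k / η| ≤ X) :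
    (S.card : ℝ) ≤ (Real.exp (L * (2 * (T * Real.exp A)) ^ 2) *
        (1 + 4 * Real.exp (-L / 4)) ^ (d + 1)) *
      (Real.exp (2 * X) * ∏ k : Fin m,
        ((1 + Real.exp (-μ (k + 1))) / (1 - Real.exp (-μ (k + 1))))) := by
  classical
  have hlab : ∀ f ∈ S, ∃ n : ℕ → ℤ, ∑ k ∈ Icc 1 m, μ k * |(n k : ℝ)| ≤ 2 * X ∧
      ∀ z : ℂ, ‖z‖ = 1 → ‖(cx f).eval z‖ ≤ (cx f).mahlerMeasure *
        Real.exp (f.natDegree * (-Real.log r) / 2 +
          f.natDegree * r ^ (m + 1) / ((m + 1) * (1 - r)) + η * (σ + 1 / l + 1) -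
          ∑ k ∈ Icc 1 m, (η * n k) * (z ^ k).re) := by
    intro f hf
    exact exists_label f (hn f hf) r h0 h1 m J hJ0 hJ η l σ X hη hl hX μ
      (fun k => (hμ k).le) (hxX f hf) hσ
  choose! nn hnn1 hnn2 using hlab
  -- the labels
  let lab : ℤ[X] → (Fin m → ℤ) := fun f k => nn f (k + 1)
  have hshift : ∀ g : ℕ → ℝ, ∑ k ∈ Icc 1 m, g k = ∑ k : Fin m, g (k + 1) := by
    intro g
    rw [Fin.sum_univ_eq_sum_range (fun i => g (i + 1)) m]
    rw [← Finset.Ico_add_one_right_eq_Icc, Finset.sum_Ico_eq_sum_range]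
    simp [add_comm]
  have hfib : ∀ b ∈ S.image lab, ((S.filter fun f => lab f = b).card : ℝ) ≤
      Real.exp (L * (2 * (T * Real.exp A)) ^ 2) * (1 + 4 * Real.exp (-L / 4)) ^ (d + 1) := by
    intro b _
    let w : ℕ → ℝ := fun k => η * (if h : 1 ≤ k ∧ k ≤ m then (b ⟨k - 1, by omega⟩ : ℝ) else 0)
    apply card_fiber d (Icc 1 m) (by simp) w (T * Real.exp A) L hL
    · intro f hf
      exact hd f (mem_filter.mp hf).1
    · intro f hf z hz
      have hfS := (mem_filter.mp hf).1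
      have hfb := (mem_filter.mp hf).2
      refine (hnn2 f hfS z hz).trans ?_
      have e1 : ∑ k ∈ Icc 1 m, (η * nn f k) * (z ^ k).re = ∑ k ∈ Icc 1 m, w k * (z ^ k).re := by
        apply sum_congr rfl
        intro k hk
        have hk' := mem_Icc.mp hk
        simp only [w, hk', and_self, dif_pos]
        have : b ⟨k - 1, by omega⟩ = nn f k := by
          rw [← hfb]
          simp only [lab]
          congr 1
          omega
        rw [this]
      rw [e1, mul_assoc, ← Real.exp_add]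
      have hdf : (f.natDegree : ℝ) ≤ d := by exact_mod_cast hd f hfS
      have hlr : 0 ≤ -Real.log r := by linarith [Real.log_neg h0 h1]
      have h1r : 0 < 1 - r := by linarith
      have e2 : (f.natDegree : ℝ) * (-Real.log r) / 2 ≤ d * (-Real.log r) / 2 := by
        gcongr
      have e3 : (f.natDegree : ℝ) * r ^ (m + 1) / ((m + 1) * (1 - r)) ≤
          d * r ^ (m + 1) / ((m + 1) * (1 - r)) := by
        gcongr
      apply mul_le_mul (hM f hfS) _ (Real.exp_pos _).le hT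
      apply Real.exp_le_exp.mpr
      linarith
  have hlabels : ((S.image lab).card : ℝ) ≤ Real.exp (2 * X) * ∏ k : Fin m,
        ((1 + Real.exp (-μ (k + 1))) / (1 - Real.exp (-μ (k + 1)))) := by
    apply card_cross m (fun k => μ (k + 1)) (fun k => hμ _) (2 * X)
    intro c hc
    obtain ⟨f, hf, rfl⟩ := mem_image.mp hc
    have := hnn1 f hf
    rw [hshift] at this
    exact this
  have hcard : (S.card : ℝ) = ∑ b ∈ S.image lab, ((S.filter fun f => lab f = b).card : ℝ) := by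
    rw [← Nat.cast_sum, Finset.card_eq_sum_card_image lab S]
  rw [hcard]
  calc ∑ b ∈ S.image lab, ((S.filter fun f => lab f = b).card : ℝ)
      ≤ ∑ b ∈ S.image lab, Real.exp (L * (2 * (T * Real.exp A)) ^ 2) *
          (1 + 4 * Real.exp (-L / 4)) ^ (d + 1) := sum_le_sum hfib
    _ = (Real.exp (L * (2 * (T * Real.exp A)) ^ 2) *
          (1 + 4 * Real.exp (-L / 4)) ^ (d + 1)) * (S.image lab).card := by
        rw [sum_const, nsmul_eq_mul, mul_comm]
    _ ≤ _ := mul_le_mul_of_nonneg_left hlabels (by positivity)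

end Pool.Agent.H589.Count
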