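import Pool.Agent.H589.Count.Energy

/-!
# The discriminant inequality
-/

set_option autoImplicit false

open Polynomial Finset

namespace Pool.Agent.H589.Count

/-- the image in `ℂ[X]`. -/
noncomputable abbrev cx (f : ℤ[X]) : ℂ[X] := f.map (Int.castRingHom ℂ)

lemma cx_natDegree (f : ℤ[X]) : (cx f).natDegree = f.natDegree :=
  natDegree_map_eq_of_injective (Int.cast_injective) f

lemma cx_leadingCoeff (f : ℤ[X]) : (cx f).leadingCoeff = (f.leadingCoeff : ℂ) := by
  rw [cx, leadingCoeff_map_of_injective (RingHom.injective_int _)]; simp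

lemma cx_ne_zero {f : ℤ[X]} (hf : f ≠ 0) : cx f ≠ 0 :=
  (Polynomial.map_ne_zero_iff (RingHom.injective_int _)).mpr hf

lemma cx_splits (f : ℤ[X]) : (cx f).Splits := IsAlgClosed.splits _

lemma eval_derivative_root (p : ℂ[X]) (hp : p.roots.Nodup) (ρ : ℂ) (hρ : ρ ∈ p.roots.toFinset) :
    p.derivative.eval ρ = p.leadingCoeff * ∏ ρ' ∈ p.roots.toFinset.erase ρ, (ρ - ρ') := by
  have hs : p.Splits := IsAlgClosed.splits _
  have hmem : ρ ∈ p.roots := Multiset.mem_toFinset.mp hρ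
  conv_lhs => rw [hs.eq_prod_roots]
  rw [derivative_C_mul, eval_mul, eval_C]
  congr 1
  have h := eval_multiset_prod_X_sub_C_derivative hmem
  rw [h]
  have e : (p.roots.toFinset.erase ρ).val = p.roots.erase ρ := by
    rw [Finset.erase_val, Multiset.toFinset_val, Multiset.dedup_eq_self.mpr hp]
  rw [Finset.prod, e]

lemma disc_ineq (f : ℤ[X]) (hf : f ≠ 0) (hn : (cx f).roots.Nodup) :
    0 ≤ 2 * f.natDegree * Real.log ‖(cx f).leadingCoeff‖ +
      ∑ ρ ∈ (cx f).roots.toFinset, ∑ ρ' ∈ (cx f).roots.toFinset.erase ρ, Real.log ‖ρ - ρ'‖ := by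
  set p := cx f with hp
  set Z := p.roots.toFinset with hZ
  have hs : p.Splits := IsAlgClosed.splits _
  have hp0 : p ≠ 0 := cx_ne_zero hf
  have hlc : (1 : ℝ) ≤ ‖p.leadingCoeff‖ := by
    rw [hp, cx_leadingCoeff, Complex.norm_intCast]
    have : f.leadingCoeff ≠ 0 := leadingCoeff_ne_zero.mpr hf
    exact_mod_cast Int.one_le_abs this
  have hlog : 0 ≤ Real.log ‖p.leadingCoeff‖ := Real.log_nonneg hlc
  -- the resultant
  have hdeg : f.derivative.natDegree ≤ f.natDegree - 1 := natDegree_derivative_le f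
  have hmap : ((resultant f f.derivative f.natDegree (f.natDegree - 1) : ℤ) : ℂ) =
      p.leadingCoeff ^ (f.natDegree - 1) * (p.roots.map p.derivative.eval).prod := by
    have h1 : resultant p p.derivative p.natDegree (f.natDegree - 1) =
        p.leadingCoeff ^ (f.natDegree - 1) * (p.roots.map p.derivative.eval).prod := by
      apply resultant_eq_prod_eval _ _ _ _ hs
      calc p.derivative.natDegree ≤ p.natDegree - 1 := natDegree_derivative_le p
        _ = f.natDegree - 1 := by rw [hp, cx_natDegree]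
    rw [← h1]
    have h2 := resultant_map_map f f.derivative f.natDegree (f.natDegree - 1) (Int.castRingHom ℂ)
    rw [← derivative_map] at h2
    rw [hp, cx_natDegree]
    exact h2.symm
  have hprod : (p.roots.map p.derivative.eval).prod = ∏ ρ ∈ Z, p.derivative.eval ρ := by
    rw [Finset.prod, hZ, Multiset.toFinset_val, Multiset.dedup_eq_self.mpr hn]
  have hfac : ∀ ρ ∈ Z, ‖p.derivative.eval ρ‖ = ‖p.leadingCoeff‖ *
      ∏ ρ' ∈ Z.erase ρ, ‖ρ - ρ'‖ := by
    intro ρ hρ
    rw [eval_derivative_root p hn ρ hρ, norm_mul, norm_prod]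
  have hpos : ∀ ρ ∈ Z, ∀ ρ' ∈ Z.erase ρ, 0 < ‖ρ - ρ'‖ := by
    intro ρ _ ρ' hρ'
    apply norm_pos_iff.mpr
    apply sub_ne_zero.mpr
    exact fun h => (Finset.ne_of_mem_erase hρ') h.symm
  have hpos2 : ∀ ρ ∈ Z, 0 < ‖p.derivative.eval ρ‖ := by
    intro ρ hρ
    rw [hfac ρ hρ]
    have : 0 < ‖p.leadingCoeff‖ := by linarith
    have h2 : 0 < ∏ ρ' ∈ Z.erase ρ, ‖ρ - ρ'‖ := prod_pos fun ρ' h => hpos ρ hρ ρ' h
    positivity
  have hne : ((resultant f f.derivative f.natDegree (f.natDegree - 1) : ℤ) : ℂ) ≠ 0 := by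
    rw [hmap, hprod]
    apply mul_ne_zero
    · exact pow_ne_zero _ (leadingCoeff_ne_zero.mpr hp0)
    · rw [prod_ne_zero_iff]
      intro ρ hρ
      exact norm_pos_iff.mp (hpos2 ρ hρ)
  have hge : 1 ≤ ‖((resultant f f.derivative f.natDegree (f.natDegree - 1) : ℤ) : ℂ)‖ := by
    rw [Complex.norm_intCast]
    have : resultant f f.derivative f.natDegree (f.natDegree - 1) ≠ 0 := by exact_mod_cast hne
    exact_mod_cast Int.one_le_abs this
  rw [hmap, hprod, norm_mul, norm_pow, norm_prod] at hge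
  have h1 : 0 ≤ Real.log (‖p.leadingCoeff‖ ^ (f.natDegree - 1) * ∏ ρ ∈ Z, ‖p.derivative.eval ρ‖) :=
    Real.log_nonneg hge
  rw [Real.log_mul (by positivity) (prod_pos hpos2).ne', Real.log_pow,
    Real.log_prod (fun ρ hρ => (hpos2 ρ hρ).ne')] at h1
  have h2 : ∀ ρ ∈ Z, Real.log ‖p.derivative.eval ρ‖ = Real.log ‖p.leadingCoeff‖ +
      ∑ ρ' ∈ Z.erase ρ, Real.log ‖ρ - ρ'‖ := by
    intro ρ hρ
    rw [hfac ρ hρ, Real.log_mul (by positivity)
      (prod_pos fun ρ' h => hpos ρ hρ ρ' h).ne',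
      Real.log_prod (fun ρ' h => (hpos ρ hρ ρ' h).ne')]
  rw [sum_congr rfl h2, sum_add_distrib, sum_const, nsmul_eq_mul] at h1
  have hcard : (Z.card : ℝ) = f.natDegree := by
    rw [hZ, Multiset.toFinset_card_of_nodup hn, ← hs.natDegree_eq_card_roots, hp, cx_natDegree]
  rw [hcard] at h1
  have h3 : ((f.natDegree - 1 : ℕ) : ℝ) ≤ f.natDegree := by
    exact_mod_cast Nat.sub_le _ _
  nlinarith [mul_le_mul_of_nonneg_right h3 hlog]

/-- The energy bound. -/
lemma energy_bound (f : ℤ[X]) (hf : f ≠ 0) (hn : (cx f).roots.Nodup)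
    (t : ℝ) (h0 : 0 < t) (h1 : t < 1) (m : ℕ) :
    ∑ n ∈ range m, t ^ n * ‖pw (cx f).roots.toFinset n‖ ^ 2 / n ≤
      f.natDegree * (-Real.log (1 - t)) + f.natDegree ^ 2 * (-Real.log t) / 2 +
      2 * f.natDegree * Real.log (cx f).mahlerMeasure := by
  have he := energy_le (cx f).roots.toFinset t h0 h1 m
  have hd := disc_ineq f hf hn
  have hs : (cx f).Splits := IsAlgClosed.splits _
  have hcard : ((cx f).roots.toFinset.card : ℝ) = f.natDegree := by
    rw [Multiset.toFinset_card_of_nodup hn, ← hs.natDegree_eq_card_roots, cx_natDegree]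
  have hM : Real.log (cx f).mahlerMeasure = Real.log ‖(cx f).leadingCoeff‖ +
      ∑ ρ ∈ (cx f).roots.toFinset, Real.log (max 1 ‖ρ‖) := by
    rw [mahlerMeasure_eq_leadingCoeff_mul_prod_roots]
    have h1 : ((cx f).roots.map (fun a => max 1 ‖a‖)).prod =
        ∏ ρ ∈ (cx f).roots.toFinset, max 1 ‖ρ‖ := by
      rw [Finset.prod, Multiset.toFinset_val, Multiset.dedup_eq_self.mpr hn]
    rw [h1, Real.log_mul, Real.log_prod]
    · intro ρ _
      exact (lt_of_lt_of_le one_pos (le_max_left _ _)).ne'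
    · exact norm_ne_zero_iff.mpr (leadingCoeff_ne_zero.mpr (cx_ne_zero hf))
    · exact (prod_pos fun ρ _ => lt_of_lt_of_le one_pos (le_max_left _ _)).ne'
  rw [hcard] at he
  rw [hM]
  linarith

end Pool.Agent.H589.Count
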