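import Mathlib

/-!
# The energy of the zeros of a separable integer polynomial
-/

set_option autoImplicit false

open Polynomial Finset

namespace Pool.Agent.H589.Count

/-- `ρ` reflected into the closed unit disc (and conjugated or inverted). -/
noncomputable def bt (ρ : ℂ) : ℂ := if 1 ≤ ‖ρ‖ then ρ⁻¹ else (starRingEnd ℂ) ρ

lemma norm_bt_le (ρ : ℂ) : ‖bt ρ‖ ≤ 1 := by
  unfold bt
  split_ifs with h
  · rw [norm_inv]; exact inv_le_one_of_one_le₀ h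
  · rw [RCLike.norm_conj]; linarith

lemma conj_mul_self_of_norm {z : ℂ} (hz : ‖z‖ = 1) : (starRingEnd ℂ) z * z = 1 := by
  rw [← Complex.normSq_eq_conj_mul_self, Complex.normSq_eq_norm_sq, hz]; simp

lemma norm_sub_eq (z ρ : ℂ) (hz : ‖z‖ = 1) : ‖z - ρ‖ = max 1 ‖ρ‖ * ‖1 - bt ρ * z‖ := by
  unfold bt
  split_ifs with h
  · have h0 : ρ ≠ 0 := by
      intro h0; rw [h0, norm_zero] at h; linarith
    rw [max_eq_right h, ← norm_mul]
    rw [show ρ * (1 - ρ⁻¹ * z) = -(z - ρ) by field_simp; ring, norm_neg]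
  · rw [max_eq_left (by linarith), one_mul]
    have : (1 - (starRingEnd ℂ) ρ * z) = (starRingEnd ℂ) (z - ρ) * z := by
      rw [map_sub, sub_mul, conj_mul_self_of_norm hz]
    rw [this, norm_mul, RCLike.norm_conj, hz, mul_one]

lemma norm_sub_le_norm_one_sub (a b : ℂ) (ha : ‖a‖ ≤ 1) (hb : ‖b‖ ≤ 1) :
    ‖a - b‖ ≤ ‖1 - a * (starRingEnd ℂ) b‖ := by
  rw [← sq_le_sq₀ (norm_nonneg _) (norm_nonneg _)]
  rw [← Complex.normSq_eq_norm_sq, ← Complex.normSq_eq_norm_sq, Complex.normSq_sub,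
    Complex.normSq_sub]
  have e1 : (1 * (starRingEnd ℂ) (a * (starRingEnd ℂ) b)).re = (a * (starRingEnd ℂ) b).re := by
    rw [one_mul, Complex.conj_re]
  rw [e1]
  have h1 : Complex.normSq 1 = 1 := by simp
  have h2 : Complex.normSq (a * (starRingEnd ℂ) b) = Complex.normSq a * Complex.normSq b := by
    rw [map_mul, Complex.normSq_conj]
  rw [h1, h2]
  have h3 : Complex.normSq a ≤ 1 := by
    rw [Complex.normSq_eq_norm_sq]; exact pow_le_one₀ (norm_nonneg _) ha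
  have h4 : Complex.normSq b ≤ 1 := by
    rw [Complex.normSq_eq_norm_sq]; exact pow_le_one₀ (norm_nonneg _) hb
  nlinarith

lemma norm_sub_le (ρ ρ' : ℂ) :
    ‖ρ - ρ'‖ ≤ max 1 ‖ρ‖ * max 1 ‖ρ'‖ * ‖1 - bt ρ * (starRingEnd ℂ) (bt ρ')‖ := by
  have hb := norm_bt_le ρ
  have hb' := norm_bt_le ρ'
  by_cases h : 1 ≤ ‖ρ‖ <;> by_cases h' : 1 ≤ ‖ρ'‖
  · have h0 : ρ ≠ 0 := by intro h0; rw [h0, norm_zero] at h; linarith
    have h0' : ρ' ≠ 0 := by intro h0; rw [h0, norm_zero] at h'; linarith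
    rw [max_eq_right h, max_eq_right h']
    have e : ρ - ρ' = ρ * ρ' * (bt ρ' - bt ρ) := by
      simp only [bt, h, h', if_true]; field_simp
    rw [e, norm_mul, norm_mul, norm_sub_rev]
    exact mul_le_mul_of_nonneg_left (norm_sub_le_norm_one_sub _ _ hb hb')
      (by positivity)
  · have h0 : ρ ≠ 0 := by intro h0; rw [h0, norm_zero] at h; linarith
    rw [max_eq_right h, max_eq_left (by linarith)]
    have e : ρ - ρ' = ρ * (1 - bt ρ * (starRingEnd ℂ) (bt ρ')) := by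
      simp only [bt, h, h', if_true, if_false, Complex.conj_conj]; field_simp
    rw [e, norm_mul, mul_one]
  · have h0' : ρ' ≠ 0 := by intro h0; rw [h0, norm_zero] at h'; linarith
    rw [max_eq_right h', max_eq_left (by linarith)]
    have e : ρ - ρ' = -ρ' * (starRingEnd ℂ) (1 - bt ρ * (starRingEnd ℂ) (bt ρ')) := by
      simp only [bt, h, h', if_true, if_false, map_sub, map_mul, Complex.conj_conj, map_one]
      field_simp
      ring
    rw [e, norm_mul, RCLike.norm_conj, norm_neg, one_mul]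
  · rw [max_eq_left (by linarith), max_eq_left (by linarith)]
    have e : ‖ρ - ρ'‖ = ‖bt ρ - bt ρ'‖ := by
      simp only [bt, h, h', if_false]
      rw [← map_sub, RCLike.norm_conj]
    rw [e, one_mul, one_mul]
    exact norm_sub_le_norm_one_sub _ _ hb hb'

lemma smooth (ζ : ℂ) (hζ : ‖ζ‖ ≤ 1) (r : ℝ) (h1 : r ≤ 1) :
    r * ‖1 - ζ‖ ^ 2 ≤ ‖1 - r * ζ‖ ^ 2 := by
  rw [← Complex.normSq_eq_norm_sq, ← Complex.normSq_eq_norm_sq, Complex.normSq_sub,
    Complex.normSq_sub]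
  have h2 : Complex.normSq 1 = 1 := by simp
  have h3 : Complex.normSq (r * ζ) = r ^ 2 * Complex.normSq ζ := by
    rw [map_mul, Complex.normSq_ofReal]; ring
  have e1 : (1 * (starRingEnd ℂ) ζ).re = ζ.re := by
    rw [one_mul, Complex.conj_re]
  have e2 : (1 * (starRingEnd ℂ) (r * ζ)).re = r * ζ.re := by
    rw [one_mul, Complex.conj_re, Complex.re_ofReal_mul]
  rw [h2, h3, e1, e2]
  have h4 : Complex.normSq ζ ≤ 1 := by
    rw [Complex.normSq_eq_norm_sq]; exact pow_le_one₀ (norm_nonneg _) hζ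
  have h5 := Complex.normSq_nonneg ζ
  have key : (1 + r ^ 2 * Complex.normSq ζ - 2 * (r * ζ.re)) -
      r * (1 + Complex.normSq ζ - 2 * ζ.re) = (1 - r) * (1 - r * Complex.normSq ζ) := by ring
  have h6 : 0 ≤ 1 - r * Complex.normSq ζ := by
    rcases le_or_gt 0 r with hr | hr
    · nlinarith
    · nlinarith
  nlinarith [mul_nonneg (sub_nonneg.mpr h1) h6]

/-- the power sums. -/
noncomputable def pw (Z : Finset ℂ) (k : ℕ) : ℂ := ∑ ρ ∈ Z, bt ρ ^ k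

lemma hasSum_log (w : ℂ) (hw : ‖w‖ < 1) :
    HasSum (fun n : ℕ => (w ^ n / n).re) (-Real.log ‖1 - w‖) := by
  have h := Complex.hasSum_re (Complex.hasSum_taylorSeries_neg_log hw)
  rwa [Complex.neg_re, Complex.log_re] at h

lemma hasSum_energy (Z : Finset ℂ) (t : ℝ) (h0 : 0 ≤ t) (h1 : t < 1) :
    HasSum (fun n : ℕ => t ^ n * ‖pw Z n‖ ^ 2 / n)
      (∑ ρ ∈ Z, ∑ ρ' ∈ Z, -Real.log ‖1 - t * (bt ρ * (starRingEnd ℂ) (bt ρ'))‖) := by
  have h : HasSum (fun n : ℕ => ∑ ρ ∈ Z, ∑ ρ' ∈ Z,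
      (((t * (bt ρ * (starRingEnd ℂ) (bt ρ'))) ^ n / n : ℂ)).re)
      (∑ ρ ∈ Z, ∑ ρ' ∈ Z, -Real.log ‖1 - t * (bt ρ * (starRingEnd ℂ) (bt ρ'))‖) := by
    apply hasSum_sum
    intro ρ _
    apply hasSum_sum
    intro ρ' _
    apply hasSum_log
    rw [norm_mul, norm_mul, RCLike.norm_conj, Complex.norm_real, Real.norm_of_nonneg h0]
    have := norm_bt_le ρ
    have := norm_bt_le ρ'
    have : ‖bt ρ‖ * ‖bt ρ'‖ ≤ 1 := by
      calc _ ≤ (1 : ℝ) * 1 := by gcongr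
        _ = 1 := by norm_num
    nlinarith
  refine h.congr_fun ?_ |> fun h => h
  intro n
  have e1 : ((t ^ n * ‖pw Z n‖ ^ 2 / n : ℝ) : ℂ) =
      ∑ ρ ∈ Z, ∑ ρ' ∈ Z, ((t * (bt ρ * (starRingEnd ℂ) (bt ρ'))) ^ n / n : ℂ) := by
    push_cast
    rw [← Complex.conj_mul']
    unfold pw
    rw [map_sum, Finset.sum_mul_sum, mul_sum, sum_div, sum_comm]
    apply sum_congr rfl
    intro ρ _
    rw [mul_sum, sum_div]
    apply sum_congr rfl
    intro ρ' _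
    rw [map_pow]
    ring
  have e2 := congrArg Complex.re e1
  rw [Complex.ofReal_re] at e2
  rw [e2, Complex.re_sum]
  apply sum_congr rfl
  intro ρ _
  rw [Complex.re_sum]

/-- The energy bound in terms of the mutual distances. -/
lemma energy_le (Z : Finset ℂ) (t : ℝ) (h0 : 0 < t) (h1 : t < 1) (m : ℕ) :
    ∑ n ∈ range m, t ^ n * ‖pw Z n‖ ^ 2 / n ≤
      Z.card * (-Real.log (1 - t)) + Z.card ^ 2 * (-Real.log t) / 2 +
      2 * Z.card * (∑ ρ ∈ Z, Real.log (max 1 ‖ρ‖)) -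
      ∑ ρ ∈ Z, ∑ ρ' ∈ Z.erase ρ, Real.log ‖ρ - ρ'‖ := by
  have hs := hasSum_energy Z t h0.le h1
  have hle : ∑ n ∈ range m, t ^ n * ‖pw Z n‖ ^ 2 / n ≤
      ∑ ρ ∈ Z, ∑ ρ' ∈ Z, -Real.log ‖1 - t * (bt ρ * (starRingEnd ℂ) (bt ρ'))‖ :=
    sum_le_hasSum _ (fun n _ => by positivity) hs
  refine hle.trans ?_
  have hlt : Real.log t < 0 := Real.log_neg h0 h1
  -- diagonal terms
  have hdiag : ∀ ρ ∈ Z, -Real.log ‖1 - t * (bt ρ * (starRingEnd ℂ) (bt ρ))‖ ≤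
      -Real.log (1 - t) := by
    intro ρ _
    apply neg_le_neg
    apply Real.log_le_log (by linarith)
    have : ‖(1 : ℂ)‖ - ‖t * (bt ρ * (starRingEnd ℂ) (bt ρ))‖ ≤
      ‖1 - t * (bt ρ * (starRingEnd ℂ) (bt ρ))‖ := norm_sub_norm_le _ _
    rw [norm_one, norm_mul, norm_mul, RCLike.norm_conj, Complex.norm_real,
      Real.norm_of_nonneg h0.le] at this
    have hb := norm_bt_le ρ
    have : ‖bt ρ‖ * ‖bt ρ‖ ≤ 1 := by nlinarith [norm_nonneg (bt ρ)]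
    nlinarith
  have hoff : ∀ ρ ∈ Z, ∀ ρ' ∈ Z.erase ρ,
      -Real.log ‖1 - t * (bt ρ * (starRingEnd ℂ) (bt ρ'))‖ ≤
      -Real.log t / 2 + Real.log (max 1 ‖ρ‖) + Real.log (max 1 ‖ρ'‖) - Real.log ‖ρ - ρ'‖ := by
    intro ρ _ ρ' hρ'
    have hne : ρ ≠ ρ' := fun h => (Finset.ne_of_mem_erase hρ') h.symm
    have hpos : 0 < ‖ρ - ρ'‖ := norm_pos_iff.mpr (sub_ne_zero.mpr hne)
    have h2 := norm_sub_le ρ ρ'
    set ζ := bt ρ * (starRingEnd ℂ) (bt ρ') with hζ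
    have hm : 0 < max 1 ‖ρ‖ := lt_of_lt_of_le one_pos (le_max_left _ _)
    have hm' : 0 < max 1 ‖ρ'‖ := lt_of_lt_of_le one_pos (le_max_left _ _)
    have hζpos : 0 < ‖1 - ζ‖ := by
      by_contra hcon
      have : ‖1 - ζ‖ = 0 := le_antisymm (not_lt.mp hcon) (norm_nonneg _)
      rw [this, mul_zero] at h2
      linarith
    have hζ1 : ‖ζ‖ ≤ 1 := by
      rw [hζ, norm_mul, RCLike.norm_conj]
      calc _ ≤ (1 : ℝ) * 1 := by
            gcongr
            · exact norm_bt_le ρ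
            · exact norm_bt_le ρ'
        _ = 1 := by norm_num
    have h3 := smooth ζ hζ1 t h1.le
    have h4 : Real.log t + 2 * Real.log ‖1 - ζ‖ ≤ 2 * Real.log ‖1 - t * ζ‖ := by
      have := Real.log_le_log (by positivity) h3
      rw [Real.log_mul h0.ne' (by positivity), Real.log_pow, Real.log_pow] at this
      exact_mod_cast this
    have h5 : Real.log ‖ρ - ρ'‖ ≤ Real.log (max 1 ‖ρ‖) + Real.log (max 1 ‖ρ'‖) +
        Real.log ‖1 - ζ‖ := by
      rw [← Real.log_mul hm.ne' hm'.ne', ← Real.log_mul (by positivity) hζpos.ne']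
      exact Real.log_le_log hpos h2
    linarith
  have hrow : ∀ ρ ∈ Z, ∑ ρ' ∈ Z, -Real.log ‖1 - t * (bt ρ * (starRingEnd ℂ) (bt ρ'))‖ ≤
      -Real.log (1 - t) + ∑ ρ' ∈ Z.erase ρ,
      (-Real.log t / 2 + Real.log (max 1 ‖ρ‖) + Real.log (max 1 ‖ρ'‖) - Real.log ‖ρ - ρ'‖) := by
    intro ρ hρ
    rw [← Finset.add_sum_erase Z _ hρ]
    exact add_le_add (hdiag ρ hρ) (sum_le_sum fun ρ' hρ' => hoff ρ hρ ρ' hρ')
  calc ∑ ρ ∈ Z, ∑ ρ' ∈ Z, -Real.log ‖1 - t * (bt ρ * (starRingEnd ℂ) (bt ρ'))‖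
      ≤ ∑ ρ ∈ Z, (-Real.log (1 - t) + ∑ ρ' ∈ Z.erase ρ,
      (-Real.log t / 2 + Real.log (max 1 ‖ρ‖) + Real.log (max 1 ‖ρ'‖) - Real.log ‖ρ - ρ'‖)) :=
        sum_le_sum hrow
    _ ≤ ∑ ρ ∈ Z, (-Real.log (1 - t) + (Z.card * (-Real.log t / 2) +
          Z.card * Real.log (max 1 ‖ρ‖) + ∑ ρ' ∈ Z, Real.log (max 1 ‖ρ'‖) -
          ∑ ρ' ∈ Z.erase ρ, Real.log ‖ρ - ρ'‖)) := by
        apply sum_le_sum
        intro ρ hρ
        have hl : ∀ x : ℂ, 0 ≤ Real.log (max 1 ‖x‖) := fun x => Real.log_nonneg (le_max_left _ _)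
        have hc : ((Z.erase ρ).card : ℝ) ≤ Z.card := by
          exact_mod_cast Finset.card_le_card (Finset.erase_subset _ _)
        rw [sum_sub_distrib, sum_add_distrib, sum_add_distrib, sum_const, sum_const,
          nsmul_eq_mul, nsmul_eq_mul]
        have e1 : ((Z.erase ρ).card : ℝ) * (-Real.log t / 2) ≤ Z.card * (-Real.log t / 2) :=
          mul_le_mul_of_nonneg_right hc (by linarith)
        have e2 : ((Z.erase ρ).card : ℝ) * Real.log (max 1 ‖ρ‖) ≤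
            Z.card * Real.log (max 1 ‖ρ‖) := mul_le_mul_of_nonneg_right hc (hl ρ)
        have e3 : ∑ ρ' ∈ Z.erase ρ, Real.log (max 1 ‖ρ'‖) ≤ ∑ ρ' ∈ Z, Real.log (max 1 ‖ρ'‖) :=
          sum_le_sum_of_subset_of_nonneg (Finset.erase_subset _ _) fun x _ _ => hl x
        linarith
    _ = _ := by
        rw [sum_add_distrib, sum_sub_distrib, sum_add_distrib, sum_add_distrib, sum_const,
          sum_const, sum_const, ← mul_sum, nsmul_eq_mul, nsmul_eq_mul, nsmul_eq_mul]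
        ring

end Pool.Agent.H589.Count
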