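import Pool.Agent.H589.Count.Sq

/-!
# From separable polynomials to all polynomials
-/

set_option autoImplicit false

open Polynomial Finset

namespace Pool.Agent.H589.Count

lemma mm_mul (f g : ℤ[X]) : (cx (f * g)).mahlerMeasure =
    (cx f).mahlerMeasure * (cx g).mahlerMeasure := by
  rw [cx, Polynomial.map_mul, mahlerMeasure_mul]

lemma rec_bound (D : ℕ) (T q C₃ C₄ : ℝ) (hq : 0 ≤ q) (h3 : 0 ≤ C₃)
    (Hsep : ∀ d : ℕ, 1 ≤ d → d ≤ D → ∀ S : Finset ℤ[X], (∀ f ∈ S, f ≠ 0) →
      (∀ f ∈ S, (cx f).roots.Nodup) → (∀ f ∈ S, f.natDegree ≤ d) →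
      (∀ f ∈ S, (cx f).mahlerMeasure ≤ T) → (S.card : ℝ) ≤ Real.exp (q * d + C₃))
    (Hbase : ∀ S : Finset ℤ[X], (∀ f ∈ S, f ≠ 0) → (∀ f ∈ S, f.natDegree = 0) →
      (∀ f ∈ S, (cx f).mahlerMeasure ≤ T) → (S.card : ℝ) ≤ Real.exp C₄) (n : ℕ) :
    ∀ d : ℕ, d ≤ D → d < 2 ^ n → ∀ S : Finset ℤ[X], (∀ f ∈ S, f ≠ 0) →
      (∀ f ∈ S, f.natDegree ≤ d) → (∀ f ∈ S, (cx f).mahlerMeasure ≤ T) →
      (S.card : ℝ) ≤ Real.exp (2 * q * d + n * C₃ + C₄) := by
  classical
  induction n with
  | zero =>
    intro d _ hd2 S hS0 hSd hSM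
    have hd0 : d = 0 := by simpa using hd2
    refine (Hbase S hS0 (fun f hf => by have := hSd f hf; omega) hSM).trans ?_
    apply Real.exp_le_exp.mpr
    subst hd0
    simp
  | succ n ih =>
    intro d hdD hd2 S hS0 hSd hSM
    rcases Nat.eq_zero_or_pos d with hd0 | hd0
    · refine (Hbase S hS0 (fun f hf => by have := hSd f hf; omega) hSM).trans ?_
      apply Real.exp_le_exp.mpr
      subst hd0
      have : 0 ≤ ((n + 1 : ℕ) : ℝ) * C₃ := by positivity
      simp only [Nat.cast_zero, mul_zero, zero_add]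
      linarith
    · have hdec : ∀ f ∈ S, ∃ u v : ℤ[X], Squarefree u ∧ f = u * v ^ 2 := fun f hf =>
        exists_sq_decomp f (hS0 f hf)
      choose! u v hu huv using hdec
      have hu0 : ∀ f ∈ S, u f ≠ 0 := by
        intro f hf h
        apply hS0 f hf
        rw [huv f hf, h, zero_mul]
      have hv0 : ∀ f ∈ S, v f ≠ 0 := by
        intro f hf h
        apply hS0 f hf
        rw [huv f hf, h]; simp
      have hdeg : ∀ f ∈ S, (u f).natDegree + 2 * (v f).natDegree = f.natDegree := by
        intro f hf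
        conv_rhs => rw [huv f hf]
        rw [natDegree_mul (hu0 f hf) (pow_ne_zero 2 (hv0 f hf)), natDegree_pow]
      have hmm : ∀ f ∈ S, (cx f).mahlerMeasure = (cx (u f)).mahlerMeasure *
          ((cx (v f)).mahlerMeasure * (cx (v f)).mahlerMeasure) := by
        intro f hf
        conv_lhs => rw [huv f hf, sq, mm_mul, mm_mul]
      have hinj : Set.InjOn (fun f => (u f, v f)) S := by
        intro f hf g hg hfg
        have h1 := congrArg Prod.fst hfg
        have h2 := congrArg Prod.snd hfg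
        simp only at h1 h2
        rw [huv f hf, huv g hg, h1, h2]
      have hcard : S.card ≤ (S.image u).card * (S.image v).card := by
        rw [← card_product, ← card_image_of_injOn hinj]
        apply card_le_card
        intro x hx
        obtain ⟨f, hf, rfl⟩ := mem_image.mp hx
        exact mem_product.mpr ⟨mem_image_of_mem _ hf, mem_image_of_mem _ hf⟩
      have hU : ((S.image u).card : ℝ) ≤ Real.exp (q * d + C₃) := by
        apply Hsep d hd0 hdD
        · intro w hw
          obtain ⟨f, hf, rfl⟩ := mem_image.mp hw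
          exact hu0 f hf
        · intro w hw
          obtain ⟨f, hf, rfl⟩ := mem_image.mp hw
          exact nodup_of_squarefree _ (hu f hf) (hu0 f hf)
        · intro w hw
          obtain ⟨f, hf, rfl⟩ := mem_image.mp hw
          have := hdeg f hf
          have := hSd f hf
          omega
        · intro w hw
          obtain ⟨f, hf, rfl⟩ := mem_image.mp hw
          have h1 := one_le_mm _ (hv0 f hf)
          have h2 := one_le_mm _ (hu0 f hf)
          have h3 := hmm f hf
          have h4 := hSM f hf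
          nlinarith [mul_le_mul h1 h1 zero_le_one (by linarith)]
      have hV : ((S.image v).card : ℝ) ≤ Real.exp (2 * q * (d / 2 : ℕ) + n * C₃ + C₄) := by
        apply ih (d / 2) (by omega) (by rw [pow_succ] at hd2; omega)
        · intro w hw
          obtain ⟨f, hf, rfl⟩ := mem_image.mp hw
          exact hv0 f hf
        · intro w hw
          obtain ⟨f, hf, rfl⟩ := mem_image.mp hw
          have := hdeg f hf
          have := hSd f hf
          omega
        · intro w hw
          obtain ⟨f, hf, rfl⟩ := mem_image.mp hw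
          have h1 := one_le_mm _ (hv0 f hf)
          have h2 := one_le_mm _ (hu0 f hf)
          have h3 := hmm f hf
          have h4 := hSM f hf
          have h5 : (cx (v f)).mahlerMeasure ≤ (cx (v f)).mahlerMeasure *
            (cx (v f)).mahlerMeasure := by nlinarith
          nlinarith
      calc (S.card : ℝ) ≤ ((S.image u).card : ℝ) * ((S.image v).card : ℝ) := by
            exact_mod_cast hcard
        _ ≤ Real.exp (q * d + C₃) * Real.exp (2 * q * (d / 2 : ℕ) + n * C₃ + C₄) :=
            mul_le_mul hU hV (Nat.cast_nonneg _) (Real.exp_pos _).le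
        _ = Real.exp (q * d + C₃ + (2 * q * (d / 2 : ℕ) + n * C₃ + C₄)) := by
            rw [← Real.exp_add]
        _ ≤ _ := by
            apply Real.exp_le_exp.mpr
            have h1 : ((d / 2 : ℕ) : ℝ) ≤ d / 2 := Nat.cast_div_le
            have h2 : 2 * q * ((d / 2 : ℕ) : ℝ) ≤ 2 * q * (d / 2) :=
              mul_le_mul_of_nonneg_left h1 (by positivity)
            push_cast
            nlinarith

lemma base_bound (T : ℝ) (hT : 1 ≤ T) (S : Finset ℤ[X]) (h0 : ∀ f ∈ S, f.natDegree = 0)
    (hM : ∀ f ∈ S, (cx f).mahlerMeasure ≤ T) : (S.card : ℝ) ≤ Real.exp (Real.log (2 * T + 1)) := by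
  classical
  rw [Real.exp_log (by linarith)]
  have hinj : Set.InjOn (fun f : ℤ[X] => f.coeff 0) S := by
    intro f hf g hg hfg
    rw [eq_C_of_natDegree_eq_zero (h0 f hf), eq_C_of_natDegree_eq_zero (h0 g hg)]
    simp only at hfg
    rw [hfg]
  have hsub : S.image (fun f : ℤ[X] => f.coeff 0) ⊆ Icc (-⌊T⌋) ⌊T⌋ := by
    intro c hc
    obtain ⟨f, hf, rfl⟩ := mem_image.mp hc
    have h1 : (cx f).mahlerMeasure = |(f.coeff 0 : ℝ)| := by
      conv_lhs => rw [eq_C_of_natDegree_eq_zero (h0 f hf)]
      rw [cx, map_C, mahlerMeasure_const, eq_intCast, Complex.norm_intCast]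
    have h2 := hM f hf
    rw [h1] at h2
    have h3 : |f.coeff 0| ≤ ⌊T⌋ := by
      rw [Int.le_floor]
      exact_mod_cast h2
    rw [mem_Icc]
    exact abs_le.mp h3
  have hfl : 0 ≤ ⌊T⌋ := Int.floor_nonneg.mpr (by linarith)
  have h1 : S.card ≤ (Icc (-⌊T⌋) ⌊T⌋).card := by
    rw [← card_image_of_injOn hinj]
    exact card_le_card hsub
  rw [Int.card_Icc] at h1
  have h2 : ((⌊T⌋ + 1 - -⌊T⌋).toNat : ℤ) = 2 * ⌊T⌋ + 1 := by
    rw [Int.toNat_of_nonneg (by omega)]; ring
  have h3 : (S.card : ℤ) ≤ 2 * ⌊T⌋ + 1 := by rw [← h2]; exact_mod_cast h1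
  have h4 : (S.card : ℝ) ≤ 2 * (⌊T⌋ : ℝ) + 1 := by exact_mod_cast h3
  have h5 := Int.floor_le T
  linarith

end Pool.Agent.H589.Count
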