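import Pool.Agent.H589.Count.Sep
import Pool.Agent.H589.Count.Rec

/-!
# The counting theorem
-/

set_option autoImplicit false

open Polynomial Finset Filter

namespace Pool.Agent.H589.Count

lemma ev_log (c s : ℝ) (hc : 0 < c) (hs : 0 < s) :
    ∀ᶠ D : ℕ in atTop, c * Real.log D ≤ (D : ℝ) ^ s := by
  have h := (isLittleO_log_rpow_atTop hs).bound (show (0 : ℝ) < 1 / c by positivity)
  have h2 := (tendsto_natCast_atTop_atTop (R := ℝ)).eventually h
  filter_upwards [h2, eventually_ge_atTop 1] with D hD hD1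
  have hD' : (1 : ℝ) ≤ D := by exact_mod_cast hD1
  rw [Real.norm_eq_abs, Real.norm_eq_abs, abs_of_nonneg (Real.log_nonneg hD'),
    abs_of_nonneg (by positivity)] at hD
  calc c * Real.log D ≤ c * (1 / c * (D : ℝ) ^ s) := mul_le_mul_of_nonneg_left hD hc.le
    _ = (D : ℝ) ^ s := by field_simp

lemma ev_ge (c : ℝ) : ∀ᶠ D : ℕ in atTop, c ≤ Real.log D :=
  (Real.tendsto_log_atTop.comp (tendsto_natCast_atTop_atTop (R := ℝ))).eventually_ge_atTop c

lemma ev_ge' (c : ℝ) : ∀ᶠ D : ℕ in atTop, c ≤ (D : ℝ) :=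
  (tendsto_natCast_atTop_atTop (R := ℝ)).eventually_ge_atTop c

/-- the bound for large degrees. -/
lemma large_bound (ε : ℝ) (hε : 0 < ε) (hε1 : ε ≤ 1 / 2) :
    ∃ C : ℝ, 0 < C ∧ ∀ᶠ D : ℕ in atTop, ∀ S : Finset ℤ[X], (∀ f ∈ S, f ≠ 0) →
      (∀ f ∈ S, f.natDegree ≤ D) → (∀ f ∈ S, (cx f).mahlerMeasure ≤ (D : ℝ) ^ (1 / 2 - ε)) →
      (S.card : ℝ) ≤ Real.exp (C * (D * Real.log (Real.log D) ^ 2 / Real.log D)) := by
  set A₀ : ℕ := ⌈2 / ε⌉₊ with hA₀
  set c₀ : ℝ := ε / 8 with hc₀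
  have hA1 : 1 ≤ A₀ := Nat.one_le_ceil_iff.mpr (by positivity)
  have hA2 : 2 / ε ≤ A₀ := Nat.le_ceil _
  have hA1' : (1 : ℝ) ≤ A₀ := by exact_mod_cast hA1
  set C₁ : ℝ := 24 * A₀ + 48 * A₀ / c₀ with hC₁
  have hc0 : 0 < c₀ := by positivity
  have hC1 : 0 < C₁ := by positivity
  refine ⟨2 * C₁ + 1, by positivity, ?_⟩
  filter_upwards [ev_ge A₀, ev_ge (Real.exp 1), ev_ge' (28 * (A₀ : ℝ) ^ 2),
    ev_ge (Real.log (2 * A₀) + 1), ev_ge' (6 * (A₀ : ℝ)),
    ev_log (32 * Real.exp 2) (ε / 4) (by positivity) (by positivity),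
    ev_log 8 (1 - ε) (by norm_num) (by linarith),
    ev_log 6 (ε / 2) (by norm_num) (by positivity),
    ev_log 3 (1 / 2) (by norm_num) (by norm_num)] with D h1 h2 h3 h4 h5 h6 h7 h8 h9
  set Lg := Real.log D with hLg
  set LL := Real.log Lg with hLL
  have he1 : (2 : ℝ) < Real.exp 1 := by
    have := Real.exp_one_gt_d9; linarith
  have hLg0 : 0 < Lg := by linarith
  have hLg1 : 1 ≤ Lg := by linarith
  have hLL1 : 1 ≤ LL := by
    rw [hLL, Real.le_log_iff_exp_le hLg0]; exact h2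
  have hLLg : LL ≤ Lg := by
    have := Real.log_le_sub_one_of_pos hLg0
    linarith
  have hD0 : D ≠ 0 := by
    rintro rfl
    simp at hLg
    linarith
  have hD0' : (0 : ℝ) < D := by exact_mod_cast Nat.pos_of_ne_zero hD0
  have hDL : Lg + 1 ≤ D := by
    have := Real.log_le_sub_one_of_pos hD0'
    linarith
  have hD2 : 3 ≤ (D : ℝ) := by linarith
  have hexp : ∀ s : ℝ, (D : ℝ) ^ s = Real.exp (s * Lg) := by
    intro s
    rw [Real.rpow_def_of_pos hD0', mul_comm]
  set T : ℝ := (D : ℝ) ^ (1 / 2 - ε) with hT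
  have hT' : T = Real.exp ((1 / 2 - ε) * Lg) := by rw [hT, hexp]
  have hT1 : 1 ≤ T := by
    rw [hT']; apply Real.one_le_exp
    have : 0 ≤ 1 / 2 - ε := by linarith
    positivity
  have hTlog : Real.log T ≤ Lg / 2 := by
    rw [hT', Real.log_exp]; nlinarith
  set P : ℝ := (D : ℝ) ^ (1 - ε) with hP
  have hP' : P = Real.exp ((1 - ε) * Lg) := by rw [hP, hexp]
  have hP0 : 0 < P := by rw [hP']; exact Real.exp_pos _
  have hmain : 16 * Real.log (D + 2) * (T * Real.exp (Lg / (2 * A₀) + 1 + c₀ * Lg)) ^ 2 ≤ P := by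
    have e1 : Real.log ((D : ℝ) + 2) ≤ 2 * Lg := by
      calc Real.log ((D : ℝ) + 2) ≤ Real.log ((D : ℝ) ^ 2) :=
            Real.log_le_log (by positivity) (by nlinarith)
        _ = 2 * Lg := by rw [Real.log_pow]; push_cast; ring
    have e2 : (T * Real.exp (Lg / (2 * A₀) + 1 + c₀ * Lg)) ^ 2 ≤
        Real.exp 2 * Real.exp ((1 - 5 / 4 * ε) * Lg) := by
      rw [hT', ← Real.exp_add, ← Real.exp_nat_mul, ← Real.exp_add]
      apply Real.exp_le_exp.mpr
      have e3 : Lg / (2 * A₀) ≤ ε / 4 * Lg := by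
        rw [div_le_iff₀ (by positivity)]
        have : 2 ≤ ε * A₀ := by
          rw [div_le_iff₀ hε] at hA2; linarith
        nlinarith
      push_cast
      rw [hc₀]
      nlinarith
    calc 16 * Real.log (D + 2) * (T * Real.exp (Lg / (2 * A₀) + 1 + c₀ * Lg)) ^ 2
        ≤ 16 * (2 * Lg) * (Real.exp 2 * Real.exp ((1 - 5 / 4 * ε) * Lg)) := by
          apply mul_le_mul _ e2 (by positivity) (by positivity)
          linarith
      _ = (32 * Real.exp 2 * Lg) * Real.exp ((1 - 5 / 4 * ε) * Lg) := by ring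
      _ ≤ (D : ℝ) ^ (ε / 4) * Real.exp ((1 - 5 / 4 * ε) * Lg) :=
          mul_le_mul_of_nonneg_right h6 (Real.exp_pos _).le
      _ = P := by
          rw [hexp, hP', ← Real.exp_add]; congr 1; ring
  intro S hS0 hSd hSM
  obtain ⟨n, hn1, hn2⟩ : ∃ n : ℕ, D < 2 ^ n ∧ (n : ℝ) ≤ 3 * Lg := by
    refine ⟨Nat.log 2 D + 1, Nat.lt_pow_succ_log_self (by norm_num) D, ?_⟩
    have e1 : 2 ^ Nat.log 2 D ≤ D := Nat.pow_log_le_self 2 hD0
    have e2 : ((2 : ℝ)) ^ Nat.log 2 D ≤ D := by exact_mod_cast e1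
    have e3 : (Nat.log 2 D : ℝ) * Real.log 2 ≤ Lg := by
      rw [← Real.log_pow]
      exact Real.log_le_log (by positivity) e2
    have e4 := Real.log_two_gt_d9
    push_cast
    have e5 : (Nat.log 2 D : ℝ) ≤ 2 * Lg := by
      have e6 : (0 : ℝ) ≤ Nat.log 2 D := Nat.cast_nonneg _
      nlinarith
    linarith
  have key := rec_bound D T (C₁ * (LL ^ 2 / Lg)) (2 * P) (Real.log (2 * T + 1)) (by positivity)
    (by positivity)
    (by
      intro d hd1 hdD S' a b c e
      refine (sep_core D d A₀ T c₀ hA1 hc0 hd1 hdD hT1 hTlog h1 h2 h3 h4 h5 S' a b c e).trans ?_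
      apply Real.exp_le_exp.mpr
      have e1 : C₁ * (LL ^ 2 / Lg) * d = C₁ * (d * LL ^ 2 / Lg) := by ring
      rw [e1]
      have e2 : 3 * LL + 5 ≤ P := by linarith
      linarith)
    (by
      intro S' _ b c
      exact base_bound T hT1 S' b c) n D le_rfl hn1 S hS0 hSd hSM
  refine key.trans (Real.exp_le_exp.mpr ?_)
  have e1 : 2 * (C₁ * (LL ^ 2 / Lg)) * D = 2 * C₁ * (D * LL ^ 2 / Lg) := by ring
  rw [e1, add_mul, one_mul]
  have e2 : (n : ℝ) * (2 * P) + Real.log (2 * T + 1) ≤ D / Lg := by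
    rw [le_div_iff₀ hLg0]
    have e3 : (n : ℝ) * (2 * P) * Lg ≤ D / 6 := by
      have e4 : (n : ℝ) * (2 * P) * Lg ≤ (3 * Lg) * (2 * P) * Lg := by gcongr
      have e5 : (6 * Lg) ^ 2 ≤ (D : ℝ) ^ ε := by
        calc (6 * Lg) ^ 2 ≤ ((D : ℝ) ^ (ε / 2)) ^ 2 := pow_le_pow_left₀ (by positivity) h8 2
          _ = (D : ℝ) ^ ε := by
              rw [← Real.rpow_natCast, ← Real.rpow_mul hD0'.le]; congr 1; push_cast; ring
      have e6 : (D : ℝ) ^ ε * P = D := by
        rw [hP, ← Real.rpow_add hD0']; simp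
      have e7 : (6 * Lg) ^ 2 * P ≤ D := by
        rw [← e6]; exact mul_le_mul_of_nonneg_right e5 hP0.le
      nlinarith
    have e8 : Real.log (2 * T + 1) * Lg ≤ 5 * D / 6 := by
      have e9 : T ≤ D := by
        rw [hT]
        calc (D : ℝ) ^ (1 / 2 - ε) ≤ (D : ℝ) ^ (1 : ℝ) :=
              Real.rpow_le_rpow_of_exponent_le (by linarith) (by linarith)
          _ = D := Real.rpow_one _
      have e10 : Real.log (2 * T + 1) ≤ 2 * Lg := by
        calc Real.log (2 * T + 1) ≤ Real.log ((D : ℝ) ^ 2) :=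
              Real.log_le_log (by positivity) (by nlinarith)
          _ = 2 * Lg := by rw [Real.log_pow]; push_cast; ring
      have e11 : (3 * Lg) ^ 2 ≤ D := by
        calc (3 * Lg) ^ 2 ≤ ((D : ℝ) ^ (1 / 2 : ℝ)) ^ 2 := pow_le_pow_left₀ (by positivity) h9 2
          _ = D := by
              rw [← Real.rpow_natCast, ← Real.rpow_mul hD0'.le]; norm_num
      nlinarith
    nlinarith
  have e3 : (D : ℝ) / Lg ≤ D * LL ^ 2 / Lg := by
    apply div_le_div_of_nonneg_right _ hLg0.le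
    apply le_mul_of_one_le_right hD0'.le
    nlinarith
  linarith

/-- the counted set. -/
def smallSet (d : ℕ) (T : ℝ) : Set ℤ[X] :=
  {f : ℤ[X] | f ≠ 0 ∧ f.natDegree ≤ d ∧ (f.map (Int.castRingHom ℂ)).mahlerMeasure ≤ T}

lemma smallSet_finite (d : ℕ) (T : ℝ) : (smallSet d T).Finite := by
  apply (finite_mahlerMeasure_le d (Real.toNNReal T)).subset
  intro f hf
  exact ⟨hf.2.1, hf.2.2.trans (Real.le_coe_toNNReal T)⟩

theorem counting (ε : ℝ) (hε : 0 < ε) : ∃ C : ℝ, ∀ d : ℕ, 16 ≤ d →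
    ((smallSet d ((d : ℝ) ^ (1 / 2 - ε))).ncard : ℝ) ≤
      Real.exp (C * d * Real.log (Real.log d) ^ 2 / Real.log d) := by
  set ε' := min ε (1 / 2) with hε'
  have hε0 : 0 < ε' := lt_min hε (by norm_num)
  obtain ⟨C, hC, hev⟩ := large_bound ε' hε0 (min_le_right _ _)
  obtain ⟨D₀, hD₀⟩ := eventually_atTop.mp hev
  have hmono : ∀ d : ℕ, 16 ≤ d → (d : ℝ) ^ (1 / 2 - ε) ≤ (d : ℝ) ^ (1 / 2 - ε') := by
    intro d hd
    have hd' : (16 : ℝ) ≤ d := by exact_mod_cast hd
    apply Real.rpow_le_rpow_of_exponent_le (by linarith)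
    have := min_le_left ε (1 / 2)
    linarith
  set N : ℕ := (smallSet D₀ D₀).ncard with hN
  refine ⟨max C (Real.log (N + 1)), ?_⟩
  intro d hd
  have hd' : (16 : ℝ) ≤ d := by exact_mod_cast hd
  have hLg : Real.exp 1 ≤ Real.log d := by
    have h1 : Real.log 16 ≤ Real.log d := Real.log_le_log (by norm_num) hd'
    have h2 : Real.log 16 = 4 * Real.log 2 := by
      rw [show (16 : ℝ) = 2 ^ 4 by norm_num, Real.log_pow]; push_cast; ring
    have h3 := Real.log_two_gt_d9
    have h4 := Real.exp_one_lt_d9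
    linarith
  have hLg0 : 0 < Real.log d := (Real.exp_pos 1).trans_le hLg
  have hLL : 1 ≤ Real.log (Real.log d) := by
    rw [Real.le_log_iff_exp_le hLg0]; exact hLg
  have hq1 : 1 ≤ (d : ℝ) * Real.log (Real.log d) ^ 2 / Real.log d := by
    rw [le_div_iff₀ hLg0, one_mul]
    have h1 : Real.log d ≤ d := by
      have := Real.log_le_sub_one_of_pos (show (0 : ℝ) < d by linarith)
      linarith
    have h2 : (1 : ℝ) ≤ Real.log (Real.log d) ^ 2 := by nlinarith
    nlinarith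
  have e : ∀ C : ℝ, C * d * Real.log (Real.log d) ^ 2 / Real.log d =
      C * (d * Real.log (Real.log d) ^ 2 / Real.log d) := fun C => by ring
  rw [e]
  set q := (d : ℝ) * Real.log (Real.log d) ^ 2 / Real.log d with hq
  have hfin := smallSet_finite d ((d : ℝ) ^ (1 / 2 - ε))
  rcases Nat.lt_or_ge d D₀ with h | h
  · have h1 : smallSet d ((d : ℝ) ^ (1 / 2 - ε)) ⊆ smallSet D₀ D₀ := by
      intro f hf
      refine ⟨hf.1, hf.2.1.trans h.le, hf.2.2.trans ?_⟩
      have hdD : (d : ℝ) ≤ D₀ := by exact_mod_cast h.le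
      calc (d : ℝ) ^ (1 / 2 - ε) ≤ (d : ℝ) ^ (1 : ℝ) :=
            Real.rpow_le_rpow_of_exponent_le (by linarith) (by linarith)
        _ = d := Real.rpow_one _
        _ ≤ D₀ := hdD
    have h2 : (smallSet d ((d : ℝ) ^ (1 / 2 - ε))).ncard ≤ N :=
      Set.ncard_le_ncard h1 (smallSet_finite _ _)
    have h3 : ((smallSet d ((d : ℝ) ^ (1 / 2 - ε))).ncard : ℝ) ≤ N + 1 := by
      have : ((smallSet d ((d : ℝ) ^ (1 / 2 - ε))).ncard : ℝ) ≤ N := by exact_mod_cast h2
      linarith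
    have hN0 : (0 : ℝ) < N + 1 := by positivity
    refine h3.trans ?_
    rw [← Real.exp_log hN0]
    apply Real.exp_le_exp.mpr
    rw [Real.exp_log hN0]
    have hlog : 0 ≤ Real.log ((N : ℝ) + 1) := Real.log_nonneg (by
      have : (0 : ℝ) ≤ N := Nat.cast_nonneg _
      linarith)
    calc Real.log ((N : ℝ) + 1) ≤ Real.log ((N : ℝ) + 1) * q := le_mul_of_one_le_right hlog hq1
      _ ≤ max C (Real.log (N + 1)) * q :=
        mul_le_mul_of_nonneg_right (le_max_right _ _) (by linarith)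
  · rw [Set.ncard_eq_toFinset_card _ hfin]
    refine (hD₀ d h hfin.toFinset ?_ ?_ ?_).trans ?_
    · intro f hf
      exact ((Set.Finite.mem_toFinset hfin).mp hf).1
    · intro f hf
      exact ((Set.Finite.mem_toFinset hfin).mp hf).2.1
    · intro f hf
      exact ((Set.Finite.mem_toFinset hfin).mp hf).2.2.trans (hmono d hd)
    · apply Real.exp_le_exp.mpr
      exact mul_le_mul_of_nonneg_right (le_max_left _ _) (by linarith)

/-- There are at least `2^(d+1)` polynomials with measure at most `√(d+1)`. -/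
theorem lower (d : ℕ) : 2 ^ (d + 1) ≤ (smallSet d (√((d : ℝ) + 1))).ncard := by
  classical
  let P : (Fin (d + 1) → Bool) → ℤ[X] := fun b =>
    ∑ i : Fin (d + 1), C (if b i then 1 else -1) * X ^ (i : ℕ)
  have hcoef : ∀ (b : Fin (d + 1) → Bool) (i : Fin (d + 1)),
      (P b).coeff i = if b i then 1 else -1 := by
    intro b i
    simp only [P, finsetSum_coeff, coeff_C_mul, coeff_X_pow]
    rw [Finset.sum_eq_single i]
    · simp
    · intro j _ hj
      have : (i : ℕ) ≠ j := fun h => hj (Fin.ext h.symm)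
      simp [this]
    · simp
  have hinj : Function.Injective P := by
    intro b b' h
    ext i
    have h1 := hcoef b i
    rw [h, hcoef b' i] at h1
    cases hb : b i <;> cases hb' : b' i <;> simp_all
  have hdeg : ∀ b, (P b).natDegree ≤ d := by
    intro b
    apply natDegree_sum_le_of_forall_le
    intro i _
    exact (natDegree_C_mul_X_pow_le _ _).trans (by omega)
  have hmem : ∀ b, P b ∈ smallSet d (√((d : ℝ) + 1)) := by
    intro b
    refine ⟨?_, hdeg b, ?_⟩
    · intro h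
      have h1 := hcoef b 0
      rw [h] at h1
      simp only [coeff_zero] at h1
      split_ifs at h1 <;> omega
    · refine (mahlerMeasure_le_sqrt_sum_sq_norm_coeff _).trans ?_
      apply Real.sqrt_le_sqrt
      have h1 : (cx (P b)).support ⊆ range (d + 1) := by
        intro i hi
        rw [mem_range]
        by_contra h
        have h2 : (P b).coeff i = 0 := coeff_eq_zero_of_natDegree_lt
          (lt_of_le_of_lt (hdeg b) (by omega))
        have h3 := mem_support_iff.mp hi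
        rw [coeff_map, h2] at h3
        simp at h3
      calc ∑ i ∈ (cx (P b)).support, ‖(cx (P b)).coeff i‖ ^ 2
          ≤ ∑ i ∈ range (d + 1), ‖(cx (P b)).coeff i‖ ^ 2 :=
            sum_le_sum_of_subset_of_nonneg h1 fun _ _ _ => by positivity
        _ ≤ ∑ i ∈ range (d + 1), (1 : ℝ) := by
            apply sum_le_sum
            intro i hi
            have h2 := hcoef b ⟨i, mem_range.mp hi⟩
            simp only at h2
            rw [coeff_map, h2]
            split_ifs <;> simp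
        _ = (d : ℝ) + 1 := by simp
  calc 2 ^ (d + 1) = Nat.card (Fin (d + 1) → Bool) := by simp
    _ = (Set.range P).ncard := by
        rw [← Set.image_univ, Set.ncard_image_of_injective _ hinj, Set.ncard_univ]
    _ ≤ _ := Set.ncard_le_ncard (by rintro _ ⟨b, rfl⟩; exact hmem b) (smallSet_finite _ _)

end Pool.Agent.H589.Count
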