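import Pool.Agent.H589.Count.Disc

/-!
# Upper bounds on the unit circle in terms of smoothed power sums, and multipliers
-/

set_option autoImplicit false

open Polynomial Finset

namespace Pool.Agent.H589.Count

lemma conj_mem (f : ℤ[X]) (ρ : ℂ) (h : ρ ∈ (cx f).roots.toFinset) :
    (starRingEnd ℂ) ρ ∈ (cx f).roots.toFinset := by
  rw [Multiset.mem_toFinset, mem_roots'] at h ⊢
  refine ⟨h.1, ?_⟩
  have h2 := h.2
  rw [IsRoot.def, eval_map] at h2 ⊢
  have h3 := Polynomial.hom_eval₂ f (Int.castRingHom ℂ) (starRingEnd ℂ) ρ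
  rw [h2, map_zero] at h3
  have e : (starRingEnd ℂ).comp (Int.castRingHom ℂ) = Int.castRingHom ℂ := RingHom.ext_int _ _
  rw [e] at h3
  exact h3.symm

lemma bt_conj (ρ : ℂ) : bt ((starRingEnd ℂ) ρ) = (starRingEnd ℂ) (bt ρ) := by
  unfold bt
  rw [RCLike.norm_conj]
  split_ifs with h
  · rw [map_inv₀]
  · rfl

lemma pw_im (f : ℤ[X]) (k : ℕ) : (pw (cx f).roots.toFinset k).im = 0 := by
  rw [← Complex.conj_eq_iff_im]
  unfold pw
  rw [map_sum]
  apply Finset.sum_nbij' (fun ρ => (starRingEnd ℂ) ρ) (fun ρ => (starRingEnd ℂ) ρ)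
  · exact fun ρ h => conj_mem f ρ h
  · exact fun ρ h => conj_mem f ρ h
  · exact fun ρ _ => Complex.conj_conj ρ
  · exact fun ρ _ => Complex.conj_conj ρ
  · intro ρ _
    rw [map_pow, bt_conj]

lemma norm_pw_le (Z : Finset ℂ) (k : ℕ) : ‖pw Z k‖ ≤ Z.card := by
  unfold pw
  calc ‖∑ ρ ∈ Z, bt ρ ^ k‖ ≤ ∑ ρ ∈ Z, ‖bt ρ ^ k‖ := norm_sum_le _ _
    _ ≤ ∑ ρ ∈ Z, 1 := by
        apply sum_le_sum
        intro ρ _
        rw [norm_pow]
        exact pow_le_one₀ (norm_nonneg _) (norm_bt_le ρ)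
    _ = Z.card := by simp

/-- the smoothed power sums. -/
noncomputable def yy (f : ℤ[X]) (r : ℝ) (k : ℕ) : ℝ :=
  r ^ k * (pw (cx f).roots.toFinset k).re / k

lemma hasSum_yy (f : ℤ[X]) (r : ℝ) (h0 : 0 ≤ r) (h1 : r < 1) (z : ℂ) (hz : ‖z‖ = 1) :
    HasSum (fun k : ℕ => yy f r k * (z ^ k).re)
      (∑ ρ ∈ (cx f).roots.toFinset, -Real.log ‖1 - r * (bt ρ * z)‖) := by
  have h : HasSum (fun n : ℕ => ∑ ρ ∈ (cx f).roots.toFinset,
      (((r * (bt ρ * z)) ^ n / n : ℂ)).re)
      (∑ ρ ∈ (cx f).roots.toFinset, -Real.log ‖1 - r * (bt ρ * z)‖) := by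
    apply hasSum_sum
    intro ρ _
    apply hasSum_log
    rw [norm_mul, norm_mul, hz, Complex.norm_real, Real.norm_of_nonneg h0, mul_one]
    have := norm_bt_le ρ
    nlinarith [norm_nonneg (bt ρ)]
  refine h.congr_fun ?_ |> fun h => h
  intro n
  have e1 : ∑ ρ ∈ (cx f).roots.toFinset, ((r * (bt ρ * z)) ^ n / n : ℂ) =
      ((r ^ n / n : ℝ) : ℂ) * (pw (cx f).roots.toFinset n * z ^ n) := by
    unfold pw
    rw [sum_mul, mul_sum]
    apply sum_congr rfl
    intro ρ _
    push_cast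
    ring
  rw [← Complex.re_sum, e1, Complex.re_ofReal_mul, Complex.mul_re, pw_im]
  unfold yy
  ring

lemma norm_eval_eq (f : ℤ[X]) (hn : (cx f).roots.Nodup) (z : ℂ) (hz : ‖z‖ = 1) :
    ‖(cx f).eval z‖ = (cx f).mahlerMeasure *
      ∏ ρ ∈ (cx f).roots.toFinset, ‖1 - bt ρ * z‖ := by
  have hs : (cx f).Splits := IsAlgClosed.splits _
  rw [hs.eval_eq_prod_roots, mahlerMeasure_eq_leadingCoeff_mul_prod_roots, norm_mul]
  have e1 : ((cx f).roots.map (z - ·)).prod = ∏ ρ ∈ (cx f).roots.toFinset, (z - ρ) := by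
    rw [Finset.prod, Multiset.toFinset_val, Multiset.dedup_eq_self.mpr hn]
  have e2 : ((cx f).roots.map (fun a => max 1 ‖a‖)).prod =
      ∏ ρ ∈ (cx f).roots.toFinset, max 1 ‖ρ‖ := by
    rw [Finset.prod, Multiset.toFinset_val, Multiset.dedup_eq_self.mpr hn]
  rw [e1, e2, norm_prod, mul_assoc, ← prod_mul_distrib]
  congr 1
  apply prod_congr rfl
  intro ρ _
  exact norm_sub_eq z ρ hz

/-- The bound of the polynomial on the unit circle by its smoothed power sums. -/
lemma norm_eval_le (f : ℤ[X]) (hn : (cx f).roots.Nodup) (r : ℝ) (h0 : 0 < r)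
    (h1 : r < 1) (m : ℕ) (z : ℂ) (hz : ‖z‖ = 1) :
    ‖(cx f).eval z‖ ≤ (cx f).mahlerMeasure *
      Real.exp (f.natDegree * (-Real.log r) / 2 + f.natDegree * r ^ (m + 1) / ((m + 1) * (1 - r)) -
        ∑ k ∈ range (m + 1), yy f r k * (z ^ k).re) := by
  have hs : (cx f).Splits := IsAlgClosed.splits _
  have hcard : ((cx f).roots.toFinset.card : ℝ) = f.natDegree := by
    rw [Multiset.toFinset_card_of_nodup hn, ← hs.natDegree_eq_card_roots, cx_natDegree]
  rw [norm_eval_eq f hn z hz]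
  apply mul_le_mul_of_nonneg_left _ (mahlerMeasure_nonneg _)
  set Z := (cx f).roots.toFinset with hZ
  have hbz : ∀ ρ, ‖bt ρ * z‖ ≤ 1 := by
    intro ρ; rw [norm_mul, hz, mul_one]; exact norm_bt_le ρ
  have hpos : ∀ ρ, 0 < ‖1 - r * (bt ρ * z)‖ := by
    intro ρ
    have : ‖(1 : ℂ)‖ - ‖r * (bt ρ * z)‖ ≤ ‖1 - r * (bt ρ * z)‖ := norm_sub_norm_le _ _
    rw [norm_one, norm_mul, Complex.norm_real, Real.norm_of_nonneg h0.le] at this
    have := hbz ρ
    nlinarith
  have hfac : ∀ ρ ∈ Z, ‖1 - bt ρ * z‖ ≤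
      Real.exp (-Real.log r / 2 + Real.log ‖1 - r * (bt ρ * z)‖) := by
    intro ρ _
    have h2 := smooth (bt ρ * z) (hbz ρ) r h1.le
    have h3 : (Real.exp (-Real.log r / 2 + Real.log ‖1 - r * (bt ρ * z)‖)) ^ 2 =
        r⁻¹ * ‖1 - r * (bt ρ * z)‖ ^ 2 := by
      rw [← Real.exp_nat_mul]
      have : ((2 : ℕ) : ℝ) * (-Real.log r / 2 + Real.log ‖1 - r * (bt ρ * z)‖) =
          Real.log r⁻¹ + (2 : ℕ) * Real.log ‖1 - r * (bt ρ * z)‖ := by
        rw [Real.log_inv]; push_cast; ring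
      rw [this, Real.exp_add, Real.exp_log (by positivity), Real.exp_nat_mul,
        Real.exp_log (hpos ρ)]
    have h4 : ‖1 - bt ρ * z‖ ^ 2 ≤
        (Real.exp (-Real.log r / 2 + Real.log ‖1 - r * (bt ρ * z)‖)) ^ 2 := by
      rw [h3, inv_mul_eq_div, le_div_iff₀ h0, mul_comm]
      exact h2
    exact le_of_sq_le_sq h4 (Real.exp_pos _).le
  calc ∏ ρ ∈ Z, ‖1 - bt ρ * z‖
      ≤ ∏ ρ ∈ Z, Real.exp (-Real.log r / 2 + Real.log ‖1 - r * (bt ρ * z)‖) :=
        prod_le_prod (fun _ _ => norm_nonneg _) hfac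
    _ = Real.exp (f.natDegree * (-Real.log r) / 2 -
          ∑ ρ ∈ Z, -Real.log ‖1 - r * (bt ρ * z)‖) := by
        rw [← Real.exp_sum, sum_add_distrib, sum_const, nsmul_eq_mul, hcard, sum_neg_distrib]
        congr 1
        ring
    _ ≤ _ := by
        apply Real.exp_le_exp.mpr
        have hsum := hasSum_yy f r h0.le h1 z hz
        have htail := (hasSum_nat_add_iff' (m + 1)).mpr hsum
        have hgeo : HasSum (fun k : ℕ => -(f.natDegree * r ^ (m + 1) / (m + 1) * r ^ k))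
            (-(f.natDegree * r ^ (m + 1) / (m + 1) * (1 - r)⁻¹)) :=
          ((hasSum_geometric_of_lt_one h0.le h1).mul_left _).neg
        have hle := hasSum_le (fun k => ?_) hgeo htail
        · have e : (f.natDegree : ℝ) * r ^ (m + 1) / (m + 1) * (1 - r)⁻¹ =
              f.natDegree * r ^ (m + 1) / ((m + 1) * (1 - r)) := by
            have h8 : (1 - r) ≠ 0 := by linarith
            have h9 : ((m : ℝ) + 1) ≠ 0 := by positivity
            field_simp
          rw [e] at hle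
          linarith
        · -- termwise bound
          have hre : |(z ^ (k + (m + 1))).re| ≤ 1 := by
            calc _ ≤ ‖z ^ (k + (m + 1))‖ := Complex.abs_re_le_norm _
              _ = 1 := by rw [norm_pow, hz, one_pow]
          have hy : |yy f r (k + (m + 1))| ≤ f.natDegree * r ^ (m + 1) / (m + 1) * r ^ k := by
            unfold yy
            rw [abs_div, abs_mul, abs_of_nonneg (pow_nonneg h0.le _), Nat.abs_cast]
            have h5 : |(pw Z (k + (m + 1))).re| ≤ f.natDegree := by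
              rw [← hcard]
              exact (Complex.abs_re_le_norm _).trans (norm_pw_le _ _)
            have h6 : ((m : ℝ) + 1) ≤ ((k + (m + 1) : ℕ) : ℝ) := by
              push_cast; linarith [(Nat.cast_nonneg k : (0 : ℝ) ≤ k)]
            calc r ^ (k + (m + 1)) * |(pw Z (k + (m + 1))).re| / ((k + (m + 1) : ℕ) : ℝ)
                ≤ r ^ (k + (m + 1)) * f.natDegree / ((m : ℝ) + 1) := by
                  gcongr
              _ = _ := by rw [pow_add]; ring
          have h7 : |yy f r (k + (m + 1)) * (z ^ (k + (m + 1))).re| ≤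
              f.natDegree * r ^ (m + 1) / (m + 1) * r ^ k := by
            rw [abs_mul]
            calc _ ≤ |yy f r (k + (m + 1))| * 1 :=
                  mul_le_mul_of_nonneg_left hre (abs_nonneg _)
              _ ≤ _ := by rw [mul_one]; exact hy
          exact (abs_le.mp h7).1

/-- Multipliers. -/
lemma exists_mult (w : ℕ → ℝ) (s : Finset ℕ) (hs : 0 ∉ s) :
    ∃ E : ℂ[X], E.coeff 0 = 1 ∧ ∀ z : ℂ, ‖z‖ = 1 →
      ‖E.eval z‖ ≤ 2 * Real.exp (∑ k ∈ s, w k * (z ^ k).re) := by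
  set P : ℂ[X] := ∑ k ∈ s, C (w k : ℂ) * X ^ k with hP
  set B : ℝ := ∑ k ∈ s, |w k| with hB
  obtain ⟨N, hN⟩ := exists_nat_gt (B ^ 2)
  have hNpos : (0 : ℝ) < N := lt_of_le_of_lt (sq_nonneg B) hN
  refine ⟨(1 + C ((1 / N : ℝ) : ℂ) * P) ^ N, ?_, ?_⟩
  · rw [coeff_zero_eq_eval_zero, eval_pow, eval_add, eval_one, eval_mul, eval_C]
    have : P.eval 0 = 0 := by
      rw [hP, eval_finsetSum]
      apply sum_eq_zero
      intro k hk
      have : k ≠ 0 := fun h => hs (h ▸ hk)
      simp [this]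
    rw [this]; simp
  · intro z hz
    have hPz : P.eval z = ∑ k ∈ s, (w k : ℂ) * z ^ k := by
      rw [hP, eval_finsetSum]; simp
    have hre : (P.eval z).re = ∑ k ∈ s, w k * (z ^ k).re := by
      rw [hPz, Complex.re_sum]
      apply sum_congr rfl
      intro k _
      rw [Complex.re_ofReal_mul]
    have hnorm : ‖P.eval z‖ ≤ B := by
      rw [hPz, hB]
      calc _ ≤ ∑ k ∈ s, ‖(w k : ℂ) * z ^ k‖ := norm_sum_le _ _
        _ = _ := by
          apply sum_congr rfl
          intro k _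
          rw [norm_mul, norm_pow, hz, one_pow, mul_one, Complex.norm_real, Real.norm_eq_abs]
    rw [eval_pow, eval_add, eval_one, eval_mul, eval_C, norm_pow, ← hre]
    set x := P.eval z with hx
    have h1 : ‖1 + ((1 / N : ℝ) : ℂ) * x‖ ^ 2 ≤ Real.exp (2 * x.re / N + ‖x‖ ^ 2 / N ^ 2) := by
      rw [← Complex.normSq_eq_norm_sq, ← Complex.normSq_eq_norm_sq, Complex.normSq_apply,
        Complex.normSq_apply]
      simp only [Complex.add_re, Complex.one_re, Complex.re_ofReal_mul, Complex.add_im,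
        Complex.one_im, Complex.im_ofReal_mul, zero_add]
      calc (1 + 1 / (N : ℝ) * x.re) * (1 + 1 / (N : ℝ) * x.re) +
            1 / (N : ℝ) * x.im * (1 / (N : ℝ) * x.im)
          = (2 * x.re / N + (x.re * x.re + x.im * x.im) / N ^ 2) + 1 := by
            field_simp; ring
        _ ≤ _ := Real.add_one_le_exp _
    have h2 : (‖1 + ((1 / N : ℝ) : ℂ) * x‖ ^ N) ^ 2 ≤ (2 * Real.exp x.re) ^ 2 := by
      rw [← pow_mul, mul_comm N 2, pow_mul]
      calc (‖1 + ((1 / N : ℝ) : ℂ) * x‖ ^ 2) ^ N ≤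
            (Real.exp (2 * x.re / N + ‖x‖ ^ 2 / N ^ 2)) ^ N := by gcongr
        _ = Real.exp (2 * x.re + ‖x‖ ^ 2 / N) := by
            rw [← Real.exp_nat_mul]
            congr 1
            field_simp
        _ ≤ Real.exp (2 * x.re + 1) := by
            apply Real.exp_le_exp.mpr
            have : ‖x‖ ^ 2 / N ≤ 1 := by
              rw [div_le_one hNpos]
              have : ‖x‖ ^ 2 ≤ B ^ 2 := pow_le_pow_left₀ (norm_nonneg _) hnorm 2
              linarith
            linarith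
        _ ≤ _ := by
            rw [Real.exp_add, mul_pow, ← Real.exp_nat_mul]
            have h3 : Real.exp 1 ≤ 4 := by
              have := Real.exp_one_lt_d9
              linarith
            have h4 : ((2 : ℕ) : ℝ) * x.re = 2 * x.re := by norm_num
            rw [h4]
            nlinarith [Real.exp_pos (2 * x.re)]
    exact le_of_sq_le_sq h2 (by positivity)

end Pool.Agent.H589.Count
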