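import Pool.Agent.H589.Count.Class

/-!
# The choice of the parameters
-/

set_option autoImplicit false

open Polynomial Finset

namespace Pool.Agent.H589.Count

lemma inv_one_sub_exp_le (x : ℝ) (hx : 0 < x) : 1 / (1 - Real.exp (-x)) ≤ 1 + 1 / x := by
  have h1 : Real.exp (-x) ≤ 1 / (1 + x) := by
    rw [Real.exp_neg, ← one_div]
    apply one_div_le_one_div_of_le (by positivity)
    linarith [Real.add_one_le_exp x]
  have h2 : x / (1 + x) ≤ 1 - Real.exp (-x) := by
    have : x / (1 + x) = 1 - 1 / (1 + x) := by field_simp; ring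
    rw [this]; linarith
  have h3 : 0 < x / (1 + x) := by positivity
  calc 1 / (1 - Real.exp (-x)) ≤ 1 / (x / (1 + x)) := one_div_le_one_div_of_le h3 h2
    _ = 1 + 1 / x := by field_simp; ring

lemma factor_small (x : ℝ) (h0 : 0 ≤ x) (h1 : x ≤ 1 / 2) :
    (1 + x) / (1 - x) ≤ Real.exp (3 * x) := by
  have h2 : 0 < 1 - x := by linarith
  rw [div_le_iff₀ h2]
  have h3 : (1 + x) ≤ Real.exp x := by linarith [Real.add_one_le_exp x]
  have h4 : 1 ≤ Real.exp (2 * x) * (1 - x) := by
    have : 1 + 2 * x ≤ Real.exp (2 * x) := by linarith [Real.add_one_le_exp (2 * x)]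
    nlinarith
  have h5 : Real.exp (3 * x) = Real.exp x * Real.exp (2 * x) := by
    rw [← Real.exp_add]; congr 1; ring
  rw [h5]
  have h6 : 0 < Real.exp x := Real.exp_pos x
  nlinarith

lemma factor_large (x : ℝ) (h0 : 0 < x) (h1 : x ≤ 1) :
    (1 + Real.exp (-x)) / (1 - Real.exp (-x)) ≤ 4 / x := by
  have h2 := inv_one_sub_exp_le x h0
  have h3 : Real.exp (-x) < 1 := by rw [Real.exp_lt_one_iff]; linarith
  have h4 : 0 < 1 - Real.exp (-x) := by linarith
  have h5 : 1 + 1 / x ≤ 2 / x := by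
    rw [show 2 / x = 1 / x + 1 / x by ring]
    have : 1 ≤ 1 / x := by rw [le_div_iff₀ h0]; linarith
    linarith
  calc (1 + Real.exp (-x)) / (1 - Real.exp (-x)) =
        (1 + Real.exp (-x)) * (1 / (1 - Real.exp (-x))) := by ring
    _ ≤ 2 * (2 / x) := by
        apply mul_le_mul (by linarith) (h2.trans h5) (by positivity) (by norm_num)
    _ = 4 / x := by ring

/-- the weights. -/
noncomputable def wt (k₁ : ℕ) (a b : ℝ) (k : ℕ) : ℝ := if k ≤ k₁ then a else b

lemma prod_wt_le (m k₁ : ℕ) (a b : ℝ) (ha : 0 < a) (ha1 : a ≤ 1) (hb : 1 ≤ b) :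
    ∏ k : Fin m, ((1 + Real.exp (-wt k₁ a b (k + 1))) / (1 - Real.exp (-wt k₁ a b (k + 1)))) ≤
      Real.exp (k₁ * Real.log (4 / a) + m * (3 * Real.exp (-b))) := by
  have hlog : 0 ≤ Real.log (4 / a) := by
    apply Real.log_nonneg
    rw [le_div_iff₀ ha]; linarith
  have hb2 : Real.exp (-b) ≤ 1 / 2 := by
    have h1 : Real.exp (-b) ≤ Real.exp (-1) := Real.exp_le_exp.mpr (by linarith)
    have h2 : Real.exp (-1) ≤ 1 / 2 := by
      rw [Real.exp_neg, ← one_div]
      apply one_div_le_one_div_of_le (by norm_num)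
      linarith [Real.add_one_le_exp (1 : ℝ)]
    linarith
  have h1 : ∀ k : Fin m, ((1 + Real.exp (-wt k₁ a b (k + 1))) /
      (1 - Real.exp (-wt k₁ a b (k + 1)))) ≤
      Real.exp ((if (k : ℕ) < k₁ then Real.log (4 / a) else 0) + 3 * Real.exp (-b)) := by
    intro k
    unfold wt
    have hE : 0 < Real.exp (-b) := Real.exp_pos _
    split_ifs with h h' h'
    · refine (factor_large a ha ha1).trans ?_
      rw [Real.exp_add, Real.exp_log (by positivity)]
      have : 1 ≤ Real.exp (3 * Real.exp (-b)) := Real.one_le_exp (by positivity)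
      have h4 : 0 < 4 / a := by positivity
      nlinarith
    · omega
    · omega
    · rw [zero_add]
      exact factor_small _ (Real.exp_pos _).le hb2
  calc ∏ k : Fin m, ((1 + Real.exp (-wt k₁ a b (k + 1))) / (1 - Real.exp (-wt k₁ a b (k + 1))))
      ≤ ∏ k : Fin m, Real.exp ((if (k : ℕ) < k₁ then Real.log (4 / a) else 0) +
          3 * Real.exp (-b)) := by
        apply prod_le_prod
        · intro k _
          apply div_nonneg
          · positivity
          · have : Real.exp (-wt k₁ a b (k + 1)) ≤ 1 := by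
              rw [Real.exp_le_one_iff]
              unfold wt
              split_ifs <;> linarith
            linarith
        · intro k _; exact h1 k
    _ = Real.exp (∑ k : Fin m, ((if (k : ℕ) < k₁ then Real.log (4 / a) else 0) +
          3 * Real.exp (-b))) := by rw [Real.exp_sum]
    _ ≤ _ := by
        apply Real.exp_le_exp.mpr
        rw [sum_add_distrib]
        apply add_le_add
        · rw [← sum_filter, sum_const, nsmul_eq_mul]
          apply mul_le_mul_of_nonneg_right _ hlog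
          have : (univ.filter fun k : Fin m => (k : ℕ) < k₁).card ≤ k₁ := by
            have h2 : ((univ.filter fun k : Fin m => (k : ℕ) < k₁).image
              (fun k : Fin m => (k : ℕ))).card = (univ.filter fun k : Fin m => (k : ℕ) < k₁).card :=
              card_image_of_injective _ Fin.val_injective
            rw [← h2]
            calc _ ≤ (range k₁).card := by
                  apply card_le_card
                  intro x hx
                  obtain ⟨k, hk, rfl⟩ := mem_image.mp hx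
                  exact mem_range.mpr (mem_filter.mp hk).2
              _ = k₁ := card_range _
          exact_mod_cast this
        · rw [sum_const, card_univ, Fintype.card_fin, nsmul_eq_mul]

lemma sum_inv_le (m : ℕ) : ∑ k ∈ Icc 1 m, (1 : ℝ) / k ≤ 1 + Real.log m := by
  have h := harmonic_le_one_add_log m
  rw [harmonic_eq_sum_Icc] at h
  push_cast at h
  simpa [one_div] using h

/-- The weighted size of the labels. -/
lemma weighted_le (f : ℤ[X]) (hf : f ≠ 0) (hn : (cx f).roots.Nodup) (D d A₀ : ℕ) (T c₀ : ℝ)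
    (hA : 1 ≤ A₀) (hc : 0 < c₀) (hd1 : 1 ≤ d) (hdD : d ≤ D) (hfd : f.natDegree ≤ d)
    (hM : (cx f).mahlerMeasure ≤ T) (hT : Real.log T ≤ Real.log D / 2)
    (h1 : (A₀ : ℝ) ≤ Real.log D) (h2 : Real.exp 1 ≤ Real.log D)
    (h4 : Real.log (2 * A₀) + 1 ≤ Real.log D)
    (k₁ : ℕ) (hk₁ : A₀ * d / Real.log D * (5 * Real.log (Real.log D) + 3) ≤ k₁) :
    ∑ k ∈ Icc 1 (2 * A₀ * d), wt k₁ (Real.exp (-(3 / 2 * Real.log (Real.log D))))
      (4 * Real.log D) k *
      |yy f (Real.exp (-(Real.log D / (A₀ * d)))) k /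
        (c₀ * √(Real.log D) / (6 * √((2 * A₀ * d : ℕ) : ℝ)))| ≤
      24 * A₀ * d / (c₀ * Real.log D) := by
  set Lg := Real.log D with hLg
  set LL := Real.log Lg with hLL
  set m : ℕ := 2 * A₀ * d with hm
  have he1 : (2 : ℝ) < Real.exp 1 := by
    have := Real.exp_one_gt_d9; linarith
  have hLg0 : 0 < Lg := by linarith
  have hLg1 : 1 ≤ Lg := by linarith
  have hA' : (1 : ℝ) ≤ A₀ := by exact_mod_cast hA
  have hd' : (1 : ℝ) ≤ d := by exact_mod_cast hd1
  have hdD' : (d : ℝ) ≤ D := by exact_mod_cast hdD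
  have hD' : (1 : ℝ) ≤ D := by linarith
  have hm' : (m : ℝ) = 2 * A₀ * d := by rw [hm]; push_cast; ring
  have hm0 : (0 : ℝ) < m := by rw [hm']; positivity
  set η : ℝ := c₀ * √Lg / (6 * √(m : ℝ)) with hη
  have hη0 : 0 < η := by positivity
  have hη2 : η ^ 2 = c₀ ^ 2 * Lg / (36 * m) := by
    rw [hη, div_pow, mul_pow, mul_pow, Real.sq_sqrt hLg0.le, Real.sq_sqrt hm0.le]; norm_num
  set r : ℝ := Real.exp (-(Lg / (A₀ * d))) with hr
  set μ := wt k₁ (Real.exp (-(3 / 2 * LL))) (4 * Lg) with hμ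
  have hμ0 : ∀ k, 0 < μ k := by
    intro k; rw [hμ]; unfold wt; split_ifs <;> positivity
  set Z := (cx f).roots.toFinset with hZ
  -- t
  set t : ℝ := D / (D + 1) with ht
  have ht0 : 0 < t := by positivity
  have ht1 : t < 1 := by rw [ht, div_lt_one (by positivity)]; linarith
  have hEn := energy_bound f hf hn t ht0 ht1 (m + 1)
  have hfd' : (f.natDegree : ℝ) ≤ d := by exact_mod_cast hfd
  have hfd0 : (0 : ℝ) ≤ f.natDegree := Nat.cast_nonneg _
  have hEn2 : ∑ k ∈ Icc 1 m, t ^ k * ‖pw Z k‖ ^ 2 / k ≤ 4 * d * Lg := by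
    have hsub : ∑ k ∈ Icc 1 m, t ^ k * ‖pw Z k‖ ^ 2 / k ≤
        ∑ k ∈ range (m + 1), t ^ k * ‖pw Z k‖ ^ 2 / k := by
      apply sum_le_sum_of_subset_of_nonneg
      · intro k hk
        have := mem_Icc.mp hk
        exact mem_range.mpr (by omega)
      · intro k _ _; positivity
    refine hsub.trans (hEn.trans ?_)
    have e1 : -Real.log (1 - t) ≤ 2 * Lg := by
      have : 1 - t = (D + 1 : ℝ)⁻¹ := by rw [ht]; field_simp; ring
      rw [this, Real.log_inv, neg_neg]
      have h : (D : ℝ) + 1 ≤ D ^ 2 := by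
        have hD2 : Real.exp 1 ≤ D := by
          have h5 : Real.log D ≤ D := by
            have := Real.log_le_sub_one_of_pos (show (0 : ℝ) < D by linarith)
            linarith
          linarith
        nlinarith
      calc Real.log (D + 1) ≤ Real.log (D ^ 2) := Real.log_le_log (by positivity) h
        _ = 2 * Lg := by rw [Real.log_pow]; push_cast; ring
    have e2 : -Real.log t ≤ 1 / D := by
      have : t = (1 + 1 / (D : ℝ))⁻¹ := by rw [ht]; field_simp
      rw [this, Real.log_inv, neg_neg]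
      have := Real.log_le_sub_one_of_pos (show (0 : ℝ) < 1 + 1 / D by positivity)
      linarith
    have e2' : 0 ≤ -Real.log t := by linarith [Real.log_neg ht0 ht1]
    have e1' : 0 ≤ -Real.log (1 - t) := by
      linarith [Real.log_neg (show 0 < 1 - t by linarith) (by linarith)]
    have e3 : Real.log (cx f).mahlerMeasure ≤ Lg / 2 := by
      have h5 : 1 ≤ (cx f).mahlerMeasure := one_le_mahlerMeasure_of_ne_zero hf
      exact (Real.log_le_log (by linarith) hM).trans hT
    have e4 : (f.natDegree : ℝ) * (-Real.log (1 - t)) ≤ d * (2 * Lg) :=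
      mul_le_mul hfd' e1 e1' (by positivity)
    have e5 : (f.natDegree : ℝ) ^ 2 * (-Real.log t) / 2 ≤ d / 2 := by
      have h6 : (f.natDegree : ℝ) ^ 2 ≤ d * D := by nlinarith
      have h7 : (f.natDegree : ℝ) ^ 2 * (-Real.log t) ≤ (d * D) * (1 / D) :=
        mul_le_mul h6 e2 e2' (by positivity)
      have h8 : ((d : ℝ) * D) * (1 / D) = d := by field_simp
      linarith
    have e6 : 2 * (f.natDegree : ℝ) * Real.log (cx f).mahlerMeasure ≤ d * Lg := by
      have h9 : 0 ≤ Real.log (cx f).mahlerMeasure :=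
        Real.log_nonneg (one_le_mahlerMeasure_of_ne_zero hf)
      have h10 : 2 * (f.natDegree : ℝ) * Real.log (cx f).mahlerMeasure ≤ 2 * d * (Lg / 2) :=
        mul_le_mul (by linarith) e3 h9 (by positivity)
      linarith
    have e7 : (d : ℝ) / 2 ≤ d * Lg := by
      have := mul_le_mul_of_nonneg_left hLg1 (show (0 : ℝ) ≤ d by linarith)
      linarith
    linarith
  -- second factor
  have hK : Lg * 1 / D ≤ Lg / (A₀ * d) * Lg := by
    have : (A₀ : ℝ) * d ≤ Lg * D := mul_le_mul h1 hdD' (by positivity) hLg0.le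
    rw [div_mul_eq_mul_div, div_le_div_iff₀ (by positivity) (by positivity)]
    nlinarith
  have hKD : 1 / (D : ℝ) ≤ Lg / (A₀ * d) := by
    have : (A₀ : ℝ) * d ≤ Lg * D := mul_le_mul h1 hdD' (by positivity) hLg0.le
    rw [div_le_div_iff₀ (by positivity) (by positivity)]
    nlinarith
  have hterm : ∀ k : ℕ, r ^ (2 * k) / t ^ k ≤ Real.exp (-(k * (Lg / (A₀ * d)))) := by
    intro k
    rw [div_le_iff₀ (by positivity)]
    have ht2 : Real.exp (-(1 / (D : ℝ))) ≤ t := by
      have h7 : 1 + 1 / (D : ℝ) ≤ Real.exp (1 / D) := by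
        linarith [Real.add_one_le_exp (1 / (D : ℝ))]
      have : t = (1 + 1 / (D : ℝ))⁻¹ := by rw [ht]; field_simp
      rw [this, Real.exp_neg]
      exact inv_anti₀ (by positivity) h7
    calc r ^ (2 * k) = Real.exp (-(k * (Lg / (A₀ * d)))) * Real.exp (-(k * (Lg / (A₀ * d)))) := by
          rw [hr, ← Real.exp_nat_mul, ← Real.exp_add]; congr 1; push_cast; ring
      _ ≤ Real.exp (-(k * (Lg / (A₀ * d)))) * t ^ k := by
          apply mul_le_mul_of_nonneg_left _ (Real.exp_pos _).le
          calc Real.exp (-(k * (Lg / (A₀ * d)))) ≤ Real.exp (-(k * (1 / (D : ℝ)))) := by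
                apply Real.exp_le_exp.mpr
                have := mul_le_mul_of_nonneg_left hKD (Nat.cast_nonneg (α := ℝ) k)
                linarith
            _ = Real.exp (-(1 / (D : ℝ))) ^ k := by
                rw [← Real.exp_nat_mul]; congr 1; ring
            _ ≤ t ^ k := pow_le_pow_left₀ (Real.exp_pos _).le ht2 k
  have hLgLL : Real.exp LL = Lg := Real.exp_log hLg0
  have hμk : ∀ k : ℕ, μ k ^ 2 * Real.exp (-(k * (Lg / (A₀ * d)))) ≤ Real.exp (-(3 * LL)) := by
    intro k
    rw [hμ]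
    unfold wt
    have hx : 0 < Lg / (A₀ * d) := by positivity
    split_ifs with hk
    · calc Real.exp (-(3 / 2 * LL)) ^ 2 * Real.exp (-(k * (Lg / (A₀ * d))))
          ≤ Real.exp (-(3 / 2 * LL)) ^ 2 * 1 := by
            apply mul_le_mul_of_nonneg_left _ (by positivity)
            rw [Real.exp_le_one_iff]
            have : 0 ≤ (k : ℝ) * (Lg / (A₀ * d)) := by positivity
            linarith
        _ = Real.exp (-(3 * LL)) := by
            rw [mul_one, ← Real.exp_nat_mul]; congr 1; push_cast; ring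
    · have hk' : (k₁ : ℝ) ≤ k := by
        have : k₁ ≤ k := by omega
        exact_mod_cast this
      have h5 : 5 * LL + 3 ≤ k * (Lg / (A₀ * d)) := by
        have h6 : A₀ * d / Lg * (5 * LL + 3) ≤ k := hk₁.trans hk'
        have h7 : A₀ * d / Lg * (5 * LL + 3) * (Lg / (A₀ * d)) ≤ k * (Lg / (A₀ * d)) :=
          mul_le_mul_of_nonneg_right h6 hx.le
        have h8 : A₀ * d / Lg * (5 * LL + 3) * (Lg / (A₀ * d)) = 5 * LL + 3 := by
          field_simp
        linarith
      calc (4 * Lg) ^ 2 * Real.exp (-(k * (Lg / (A₀ * d))))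
          ≤ (4 * Lg) ^ 2 * Real.exp (-(5 * LL + 3)) := by
            apply mul_le_mul_of_nonneg_left _ (by positivity)
            apply Real.exp_le_exp.mpr; linarith
        _ = 16 * Real.exp (-3) * Real.exp (-(3 * LL)) := by
            rw [mul_pow, ← hLgLL, ← Real.exp_nat_mul]
            rw [show -(5 * LL + 3) = -3 + (-(3 * LL)) + (-(2 * LL)) by ring, Real.exp_add,
              Real.exp_add]
            have : Real.exp (((2 : ℕ) : ℝ) * LL) * Real.exp (-(2 * LL)) = 1 := by
              rw [← Real.exp_add]; simp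
            calc 4 ^ 2 * Real.exp (((2 : ℕ) : ℝ) * LL) * (Real.exp (-3) * Real.exp (-(3 * LL)) *
                  Real.exp (-(2 * LL))) = 4 ^ 2 * Real.exp (-3) * Real.exp (-(3 * LL)) *
                  (Real.exp (((2 : ℕ) : ℝ) * LL) * Real.exp (-(2 * LL))) := by ring
              _ = _ := by rw [this]; ring
        _ ≤ 1 * Real.exp (-(3 * LL)) := by
            apply mul_le_mul_of_nonneg_right _ (Real.exp_pos _).le
            have h9 : Real.exp (-3) = (Real.exp 1 ^ 3)⁻¹ := by
              rw [← Real.exp_nat_mul, ← Real.exp_neg]; norm_num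
            rw [h9]
            have h10 : (16 : ℝ) ≤ Real.exp 1 ^ 3 := by
              have := Real.exp_one_gt_d9
              have h11 : (2.7 : ℝ) ^ 3 ≤ Real.exp 1 ^ 3 :=
                pow_le_pow_left₀ (by norm_num) (by linarith) 3
              norm_num at h11 ⊢
              linarith
            rw [← div_eq_mul_inv, div_le_one (by positivity)]
            exact h10
        _ = _ := one_mul _
  have hsecond : ∑ k ∈ Icc 1 m, μ k ^ 2 * r ^ (2 * k) / (k * t ^ k * η ^ 2) ≤
      2 / (Lg ^ 2 * η ^ 2) := by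
    have hs1 : ∀ k ∈ Icc 1 m, μ k ^ 2 * r ^ (2 * k) / (k * t ^ k * η ^ 2) ≤
        Real.exp (-(3 * LL)) / η ^ 2 * (1 / k) := by
      intro k hk
      have hk1 : (1 : ℝ) ≤ k := by exact_mod_cast (mem_Icc.mp hk).1
      have h3 : μ k ^ 2 * (r ^ (2 * k) / t ^ k) ≤ Real.exp (-(3 * LL)) :=
        (mul_le_mul_of_nonneg_left (hterm k) (by positivity)).trans (hμk k)
      calc μ k ^ 2 * r ^ (2 * k) / (k * t ^ k * η ^ 2) =
            (μ k ^ 2 * (r ^ (2 * k) / t ^ k)) / η ^ 2 * (1 / k) := by
              field_simp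
        _ ≤ _ := by gcongr
    refine (sum_le_sum hs1).trans ?_
    rw [← mul_sum]
    have h5 : ∑ k ∈ Icc 1 m, (1 : ℝ) / k ≤ 2 * Lg := by
      refine (sum_inv_le m).trans ?_
      have : Real.log m ≤ Real.log (2 * A₀) + Lg := by
        rw [hm', Real.log_mul (by positivity) (by positivity)]
        have := Real.log_le_log (by positivity) hdD'
        linarith
      linarith
    have h6 : Real.exp (-(3 * LL)) = 1 / Lg ^ 3 := by
      rw [Real.exp_neg, ← hLgLL, ← Real.exp_nat_mul, one_div]; simp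
    rw [h6]
    calc 1 / Lg ^ 3 / η ^ 2 * ∑ i ∈ Icc 1 m, (1 : ℝ) / i ≤ 1 / Lg ^ 3 / η ^ 2 * (2 * Lg) :=
          mul_le_mul_of_nonneg_left h5 (by positivity)
      _ = 2 / (Lg ^ 2 * η ^ 2) := by field_simp
  -- Cauchy-Schwarz
  have hCS : (∑ k ∈ Icc 1 m, μ k * (r ^ k * ‖pw Z k‖ / (k * η))) ^ 2 ≤
      (∑ k ∈ Icc 1 m, t ^ k * ‖pw Z k‖ ^ 2 / k) *
      ∑ k ∈ Icc 1 m, μ k ^ 2 * r ^ (2 * k) / (k * t ^ k * η ^ 2) := by
    apply sum_sq_le_sum_mul_sum_of_sq_le_mul
    · intro k _; positivity
    · intro k _; positivity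
    · intro k hk
      have hk1 : (1 : ℝ) ≤ k := by exact_mod_cast (mem_Icc.mp hk).1
      apply le_of_eq
      field_simp
      ring
  have hfin : (∑ k ∈ Icc 1 m, μ k * (r ^ k * ‖pw Z k‖ / (k * η))) ^ 2 ≤
      (24 * A₀ * d / (c₀ * Lg)) ^ 2 := by
    refine hCS.trans ?_
    calc _ ≤ (4 * d * Lg) * (2 / (Lg ^ 2 * η ^ 2)) :=
          mul_le_mul hEn2 hsecond (sum_nonneg fun k _ => by positivity) (by positivity)
      _ = 576 * A₀ * d ^ 2 / (c₀ * Lg) ^ 2 := by
          rw [hη2, hm']; field_simp; ring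
      _ ≤ 576 * A₀ ^ 2 * d ^ 2 / (c₀ * Lg) ^ 2 := by
          gcongr
          nlinarith
      _ = _ := by ring
  have hfin2 := (abs_le_of_sq_le_sq' hfin (by positivity)).2
  refine le_trans ?_ hfin2
  apply sum_le_sum
  intro k hk
  have hk1 : (1 : ℝ) ≤ k := by exact_mod_cast (mem_Icc.mp hk).1
  apply mul_le_mul_of_nonneg_left _ (hμ0 k).le
  unfold yy
  rw [abs_div, abs_div, abs_mul, abs_of_pos hη0, abs_of_nonneg (by positivity : (0 : ℝ) ≤ k),
    abs_of_nonneg (by positivity : (0 : ℝ) ≤ r ^ k), div_div]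
  gcongr
  exact Complex.abs_re_le_norm _

end Pool.Agent.H589.Count
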