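import Pool.Agent.H589.Count.Param

/-!
# Separable polynomials: the bound
-/

set_option autoImplicit false

open Polynomial Finset

namespace Pool.Agent.H589.Count

lemma sep_core (D d A₀ : ℕ) (T c₀ : ℝ)
    (hA : 1 ≤ A₀) (hc : 0 < c₀) (hd1 : 1 ≤ d) (hdD : d ≤ D) (hT1 : 1 ≤ T)
    (hT : Real.log T ≤ Real.log D / 2)
    (h1 : (A₀ : ℝ) ≤ Real.log D) (h2 : Real.exp 1 ≤ Real.log D) (h3 : 28 * (A₀ : ℝ) ^ 2 ≤ D)
    (h4 : Real.log (2 * A₀) + 1 ≤ Real.log D) (h5 : 6 * (A₀ : ℝ) ≤ D)
    (S : Finset ℤ[X]) (hS0 : ∀ f ∈ S, f ≠ 0) (hn : ∀ f ∈ S, (cx f).roots.Nodup)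
    (hd : ∀ f ∈ S, f.natDegree ≤ d) (hM : ∀ f ∈ S, (cx f).mahlerMeasure ≤ T) :
    (S.card : ℝ) ≤ Real.exp (
      16 * Real.log (D + 2) * (T * Real.exp (Real.log D / (2 * A₀) + 1 + c₀ * Real.log D)) ^ 2 +
      (24 * A₀ + 48 * A₀ / c₀) * (d * Real.log (Real.log D) ^ 2 / Real.log D) +
      3 * Real.log (Real.log D) + 5) := by
  set Lg := Real.log D with hLg
  set LL := Real.log Lg with hLL
  set m : ℕ := 2 * A₀ * d with hm
  have he1 : (2 : ℝ) < Real.exp 1 := by
    have := Real.exp_one_gt_d9; linarith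
  have hLg0 : 0 < Lg := by linarith
  have hLg1 : 1 ≤ Lg := by linarith
  have hLL1 : 1 ≤ LL := by
    rw [hLL, Real.le_log_iff_exp_le hLg0]; exact h2
  have hA' : (1 : ℝ) ≤ A₀ := by exact_mod_cast hA
  have hd' : (1 : ℝ) ≤ d := by exact_mod_cast hd1
  have hdD' : (d : ℝ) ≤ D := by exact_mod_cast hdD
  have hD' : (1 : ℝ) ≤ D := by linarith
  have hD2 : Real.exp 1 ≤ D := by
    have h5 : Real.log D ≤ D := by
      have := Real.log_le_sub_one_of_pos (show (0 : ℝ) < D by linarith)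
      linarith
    linarith
  have hm' : (m : ℝ) = 2 * A₀ * d := by rw [hm]; push_cast; ring
  have hm1 : (1 : ℝ) ≤ m := by rw [hm']; nlinarith
  have hm0 : (0 : ℝ) < m := by linarith
  set η : ℝ := c₀ * √Lg / (6 * √(m : ℝ)) with hη
  have hη0 : 0 < η := by positivity
  have hq : √Lg ^ 2 = Lg := Real.sq_sqrt hLg0.le
  have hs : √(m : ℝ) ^ 2 = m := Real.sq_sqrt hm0.le
  have hq1 : 1 ≤ √Lg := Real.one_le_sqrt.mpr hLg1
  have hs1 : 1 ≤ √(m : ℝ) := Real.one_le_sqrt.mpr hm1
  have hqL : √Lg ≤ Lg := by nlinarith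
  set r : ℝ := Real.exp (-(Lg / (A₀ * d))) with hr
  have hr0 : 0 < r := Real.exp_pos _
  have hx : 0 < Lg / (A₀ * d) := by positivity
  have hr1 : r < 1 := by rw [hr, Real.exp_lt_one_iff]; linarith
  set k₁ : ℕ := ⌈A₀ * d / Lg * (5 * LL + 3)⌉₊ with hk₁
  have hk₁a : A₀ * d / Lg * (5 * LL + 3) ≤ k₁ := Nat.le_ceil _
  have hk₁b : (k₁ : ℝ) ≤ A₀ * d / Lg * (5 * LL + 3) + 1 := by
    refine (Nat.ceil_lt_add_one ?_).le
    positivity
  have key := card_separable_le d T r (by linarith) hr0 hr1 m (7 * m ^ 2) (by positivity)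
    (by
      push_cast
      have := Real.pi_lt_d2
      nlinarith [sq_nonneg (m : ℝ)])
    η (√Lg / √(m : ℝ)) (4 * √Lg * √(m : ℝ)) (24 * A₀ * d / (c₀ * Lg))
    (Lg / (2 * A₀) + 1 + c₀ * Lg) (4 * Real.log (D + 2)) hη0 (by positivity) (by positivity)
    (wt k₁ (Real.exp (-(3 / 2 * LL))) (4 * Lg))
    (by intro k; unfold wt; split_ifs <;> positivity)
    (by
      have e1 : (√Lg / √(m : ℝ)) ^ 2 * m = Lg := by
        rw [div_pow, hq, hs]; field_simp
      have e2 : (√Lg / √(m : ℝ)) * (4 * √Lg * √(m : ℝ)) = 4 * Lg := by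
        have : (√Lg / √(m : ℝ)) * (4 * √Lg * √(m : ℝ)) = 4 * √Lg ^ 2 := by field_simp
        rw [this, hq]
      rw [e1, e2]
      have e3 : Real.log ((7 * m ^ 2 : ℕ) : ℝ) ≤ 3 * Lg := by
        have : ((7 * m ^ 2 : ℕ) : ℝ) ≤ (D : ℝ) ^ 3 := by
          push_cast
          rw [hm']
          have h6 : (d : ℝ) ^ 2 ≤ D ^ 2 := by nlinarith
          calc (7 : ℝ) * (2 * (A₀ : ℝ) * d) ^ 2 = 28 * (A₀ : ℝ) ^ 2 * (d : ℝ) ^ 2 := by ring
            _ ≤ (D : ℝ) * (D : ℝ) ^ 2 := mul_le_mul h3 h6 (by positivity) (by positivity)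
            _ = (D : ℝ) ^ 3 := by ring
        calc Real.log ((7 * m ^ 2 : ℕ) : ℝ) ≤ Real.log ((D : ℝ) ^ 3) := by
              apply Real.log_le_log _ this
              push_cast
              positivity
          _ = 3 * Lg := by rw [Real.log_pow]; push_cast; ring
      linarith)
    (by
      have e1 : (d : ℝ) * (-Real.log r) / 2 = Lg / (2 * A₀) := by
        rw [hr, Real.log_exp, neg_neg]; field_simp
      have e2 : (d : ℝ) * r ^ (m + 1) / ((m + 1) * (1 - r)) ≤ 1 := by
        have e3 : r ^ (m + 1) ≤ 1 / D ^ 2 := by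
          calc r ^ (m + 1) ≤ r ^ m := pow_le_pow_of_le_one hr0.le hr1.le (Nat.le_succ m)
            _ = Real.exp (-(2 * Lg)) := by
                rw [hr, ← Real.exp_nat_mul, hm']; congr 1; field_simp
            _ = 1 / D ^ 2 := by
                rw [Real.exp_neg, one_div]
                congr 1
                rw [mul_comm, Real.exp_mul, hLg, Real.exp_log (by linarith)]
                norm_num
        have e4 : 1 / (1 - r) ≤ 1 + D := by
          refine (inv_one_sub_exp_le _ hx).trans ?_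
          rw [one_div_div]
          have : (A₀ : ℝ) * d / Lg ≤ D := by
            rw [div_le_iff₀ hLg0]
            nlinarith
          linarith
        have e5 : (d : ℝ) / (m + 1) ≤ 1 := by
          rw [div_le_one (by positivity), hm']
          nlinarith
        have e6 : 0 < 1 - r := by linarith
        calc (d : ℝ) * r ^ (m + 1) / ((m + 1) * (1 - r)) =
              (d / (m + 1)) * r ^ (m + 1) * (1 / (1 - r)) := by field_simp
          _ ≤ 1 * (1 / D ^ 2) * (1 + D) := by gcongr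
          _ ≤ 1 := by
              rw [one_mul, div_mul_eq_mul_div, one_mul, div_le_one (by positivity)]
              nlinarith
      have e7 : η * (4 * √Lg * √(m : ℝ) + 1 / (√Lg / √(m : ℝ)) + 1) ≤ c₀ * Lg := by
        have e8 : η * (4 * √Lg * √(m : ℝ) + 1 / (√Lg / √(m : ℝ)) + 1) =
            c₀ * (4 / 6 * √Lg ^ 2 + 1 / 6 + √Lg / √(m : ℝ) / 6) := by
          rw [hη]; field_simp
        rw [e8, hq]
        apply mul_le_mul_of_nonneg_left _ hc.le
        have e9 : √Lg / √(m : ℝ) ≤ Lg := (div_le_self (by positivity) hs1).trans hqL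
        linarith
      rw [e1]
      linarith)
    (by
      have : -(4 * Real.log ((D : ℝ) + 2)) / 4 = -Real.log (D + 2) := by ring
      rw [this, Real.exp_neg, Real.exp_log (by positivity), ← one_div]
      exact one_div_le_one_div_of_le (by norm_num) (by linarith))
    S hn hd hM
    (by
      intro f hf
      exact weighted_le f (hS0 f hf) (hn f hf) D d A₀ T c₀ hA hc hd1 hdD (hd f hf) (hM f hf)
        hT h1 h2 h4 k₁ hk₁a)
  refine key.trans ?_
  have hprod := prod_wt_le m k₁ (Real.exp (-(3 / 2 * LL))) (4 * Lg) (Real.exp_pos _)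
    (by rw [Real.exp_le_one_iff]; linarith) (by linarith)
  have hpow : (1 + 4 * Real.exp (-(4 * Real.log ((D : ℝ) + 2)) / 4)) ^ (d + 1) ≤ Real.exp 4 := by
    have : -(4 * Real.log ((D : ℝ) + 2)) / 4 = -Real.log (D + 2) := by ring
    rw [this, Real.exp_neg, Real.exp_log (by positivity)]
    calc (1 + 4 * ((D : ℝ) + 2)⁻¹) ^ (d + 1) ≤ Real.exp (4 * ((D : ℝ) + 2)⁻¹) ^ (d + 1) := by
          apply pow_le_pow_left₀ (by positivity)
          linarith [Real.add_one_le_exp (4 * ((D : ℝ) + 2)⁻¹)]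
      _ = Real.exp (((d + 1 : ℕ) : ℝ) * (4 * ((D : ℝ) + 2)⁻¹)) := by rw [← Real.exp_nat_mul]
      _ ≤ Real.exp 4 := by
          apply Real.exp_le_exp.mpr
          push_cast
          rw [← div_eq_mul_inv, mul_div_assoc', div_le_iff₀ (by positivity)]
          linarith
  have hlog4 : Real.log (4 / Real.exp (-(3 / 2 * LL))) ≤ 3 * LL := by
    rw [Real.log_div (by norm_num) (Real.exp_pos _).ne', Real.log_exp]
    have : Real.log 4 ≤ 1.4 := by
      rw [show (4 : ℝ) = 2 ^ 2 by norm_num, Real.log_pow]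
      have := Real.log_two_lt_d9
      push_cast
      linarith
    linarith
  have hlog40 : 0 ≤ Real.log (4 / Real.exp (-(3 / 2 * LL))) := by
    apply Real.log_nonneg
    rw [le_div_iff₀ (Real.exp_pos _)]
    have : Real.exp (-(3 / 2 * LL)) ≤ 1 := by rw [Real.exp_le_one_iff]; linarith
    linarith
  have hsum : k₁ * Real.log (4 / Real.exp (-(3 / 2 * LL))) + m * (3 * Real.exp (-(4 * Lg))) ≤
      24 * A₀ * (d * LL ^ 2 / Lg) + 3 * LL + 1 := by
    have e1 : k₁ * Real.log (4 / Real.exp (-(3 / 2 * LL))) ≤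
        (A₀ * d / Lg * (5 * LL + 3) + 1) * (3 * LL) :=
      mul_le_mul hk₁b hlog4 hlog40 (by positivity)
    have e2 : (A₀ * d / Lg * (5 * LL + 3) + 1) * (3 * LL) ≤
        24 * A₀ * (d * LL ^ 2 / Lg) + 3 * LL := by
      have e3 : A₀ * d / Lg * (5 * LL + 3) ≤ A₀ * d / Lg * (8 * LL) := by
        apply mul_le_mul_of_nonneg_left _ (by positivity)
        linarith
      have e4 : A₀ * d / Lg * (8 * LL) * (3 * LL) = 24 * A₀ * (d * LL ^ 2 / Lg) := by ring
      nlinarith
    have e5 : (m : ℝ) * (3 * Real.exp (-(4 * Lg))) ≤ 1 := by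
      have e6 : Real.exp (-(4 * Lg)) = 1 / D ^ 4 := by
        rw [Real.exp_neg, one_div]
        congr 1
        rw [mul_comm, Real.exp_mul, hLg, Real.exp_log (by linarith)]
        norm_num
      rw [e6, hm']
      have e7 : 2 * (A₀ : ℝ) * d * (3 * (1 / D ^ 4)) = (6 * A₀) * d / D ^ 4 := by ring
      rw [e7, div_le_one (by positivity)]
      calc 6 * (A₀ : ℝ) * d ≤ D * D := mul_le_mul h5 hdD' (by positivity) (by positivity)
        _ = D ^ 2 := by ring
        _ ≤ D ^ 4 := pow_le_pow_right₀ hD' (by norm_num)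
    linarith
  have hX : 2 * (24 * A₀ * d / (c₀ * Lg)) ≤ 48 * A₀ / c₀ * (d * LL ^ 2 / Lg) := by
    have : 2 * (24 * A₀ * d / (c₀ * Lg)) = 48 * A₀ / c₀ * (d * 1 / Lg) := by
      field_simp; ring
    rw [this]
    gcongr
    nlinarith
  calc _ ≤ (Real.exp (4 * Real.log (D + 2) *
        (2 * (T * Real.exp (Lg / (2 * A₀) + 1 + c₀ * Lg))) ^ 2) * Real.exp 4) *
      (Real.exp (2 * (24 * A₀ * d / (c₀ * Lg))) *
        Real.exp (k₁ * Real.log (4 / Real.exp (-(3 / 2 * LL))) + m * (3 * Real.exp (-(4 * Lg))))) := by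
        apply mul_le_mul
        · exact mul_le_mul_of_nonneg_left hpow (Real.exp_pos _).le
        · exact mul_le_mul_of_nonneg_left hprod (Real.exp_pos _).le
        · apply mul_nonneg (Real.exp_pos _).le
          apply prod_nonneg
          intro k _
          apply div_nonneg
          · positivity
          · have : Real.exp (-wt k₁ (Real.exp (-(3 / 2 * LL))) (4 * Lg) (k + 1)) ≤ 1 := by
              rw [Real.exp_le_one_iff]
              unfold wt
              split_ifs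
              · linarith [Real.exp_pos (-(3 / 2 * LL))]
              · linarith
            linarith
        · positivity
    _ = Real.exp (4 * Real.log (D + 2) *
        (2 * (T * Real.exp (Lg / (2 * A₀) + 1 + c₀ * Lg))) ^ 2 + 4 +
        (2 * (24 * A₀ * d / (c₀ * Lg)) +
        (k₁ * Real.log (4 / Real.exp (-(3 / 2 * LL))) + m * (3 * Real.exp (-(4 * Lg)))))) := by
        rw [← Real.exp_add, ← Real.exp_add, ← Real.exp_add]
    _ ≤ _ := by
        apply Real.exp_le_exp.mpr
        have : 4 * Real.log ((D : ℝ) + 2) *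
          (2 * (T * Real.exp (Lg / (2 * A₀) + 1 + c₀ * Lg))) ^ 2 =
          16 * Real.log (D + 2) * (T * Real.exp (Lg / (2 * A₀) + 1 + c₀ * Lg)) ^ 2 := by ring
        rw [this]
        linarith

end Pool.Agent.H589.Count
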