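import Pool.Agent.H589.Count.Disc

/-!
# Squarefree decomposition in `ℤ[X]`
-/

set_option autoImplicit false

open Polynomial Finset

namespace Pool.Agent.H589.Count

lemma exists_sq_decomp (f : ℤ[X]) (hf : f ≠ 0) :
    ∃ u v : ℤ[X], Squarefree u ∧ f = u * v ^ 2 := by
  revert hf
  refine wellFounded_dvdNotUnit.induction (C := fun f : ℤ[X] => f ≠ 0 →
    ∃ u v : ℤ[X], Squarefree u ∧ f = u * v ^ 2) f ?_
  intro f ih hf
  by_cases hs : Squarefree f
  · exact ⟨f, 1, hs, by simp⟩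
  · rw [Squarefree] at hs
    push Not at hs
    obtain ⟨x, ⟨g, hg⟩, hx⟩ := hs
    have hg0 : g ≠ 0 := by rintro rfl; apply hf; rw [hg, mul_zero]
    have hx2 : ¬ IsUnit (x * x) := fun h => hx (isUnit_of_mul_isUnit_left h)
    obtain ⟨u, v, hu, huv⟩ := ih g ⟨hg0, x * x, hx2, by rw [hg, mul_comm]⟩ hg0
    exact ⟨u, x * v, hu, by rw [hg, huv]; ring⟩

lemma squarefree_map_rat (u : ℤ[X]) (hu : Squarefree u) (hu0 : u ≠ 0) :
    Squarefree (u.map (Int.castRingHom ℚ)) := by
  intro q hq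
  have hq0 : q ≠ 0 := by
    rintro rfl
    rw [zero_mul, zero_dvd_iff] at hq
    exact hu0 ((Polynomial.map_eq_zero_iff (RingHom.injective_int _)).mp hq)
  -- clear denominators
  obtain ⟨c, hc, p0, hp0⟩ : ∃ c : ℤ, c ≠ 0 ∧ ∃ p : ℤ[X], p.map (Int.castRingHom ℚ) = C (c : ℚ) * q := by
    obtain ⟨b, hb0, hb⟩ := IsLocalization.integerNormalization_spec (nonZeroDivisors ℤ) q
    refine ⟨b, nonZeroDivisors.ne_zero hb0,
      IsLocalization.integerNormalization (nonZeroDivisors ℤ) q, ?_⟩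
    rw [show (Int.castRingHom ℚ) = algebraMap ℤ ℚ from rfl, hb]
    rw [Algebra.smul_def]
    simp
  have hp00 : p0 ≠ 0 := by
    rintro rfl
    rw [Polynomial.map_zero] at hp0
    have : (C (c : ℚ)) * q ≠ 0 := mul_ne_zero (by simpa using hc) hq0
    exact this hp0.symm
  set p := p0.primPart with hp
  have hpp : p.IsPrimitive := isPrimitive_primPart p0
  have hcont : p0 = C p0.content * p := p0.eq_C_content_mul_primPart
  have hc0 : (p0.content : ℤ) ≠ 0 := by
    intro h; rw [h, map_zero, zero_mul] at hcont; exact hp00 hcont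
  have hpq : C (p0.content : ℚ) * p.map (Int.castRingHom ℚ) = C (c : ℚ) * q := by
    rw [← hp0]
    conv_rhs => rw [hcont]
    rw [Polynomial.map_mul, map_C]
    simp
  have hpdvd : p.map (Int.castRingHom ℚ) ∣ q := by
    refine ⟨C ((c : ℚ)⁻¹ * (p0.content : ℚ)), ?_⟩
    have hc' : (c : ℚ) ≠ 0 := by exact_mod_cast hc
    have h1 : q = C ((c : ℚ)⁻¹) * (C (c : ℚ) * q) := by
      rw [← mul_assoc, ← C_mul, inv_mul_cancel₀ hc', C_1, one_mul]
    rw [h1, ← hpq, C_mul]
    ring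
  have hqdvd : q ∣ p.map (Int.castRingHom ℚ) := by
    refine ⟨C ((p0.content : ℚ)⁻¹ * (c : ℚ)), ?_⟩
    have hc' : (p0.content : ℚ) ≠ 0 := by exact_mod_cast hc0
    have h1 : p.map (Int.castRingHom ℚ) = C ((p0.content : ℚ)⁻¹) *
        (C (p0.content : ℚ) * p.map (Int.castRingHom ℚ)) := by
      rw [← mul_assoc, ← C_mul, inv_mul_cancel₀ hc', C_1, one_mul]
    rw [h1, hpq, C_mul]
    ring
  have hd : (p * p).map (Int.castRingHom ℚ) ∣ u.map (Int.castRingHom ℚ) := by
    rw [Polynomial.map_mul]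
    exact (mul_dvd_mul hpdvd hpdvd).trans hq
  have hd3 : p * p ∣ u :=
    (IsPrimitive.Int.dvd_iff_map_cast_dvd_map_cast _ _ (hpp.mul hpp)).mpr hd
  have hup : IsUnit p := hu p hd3
  exact isUnit_of_dvd_unit hqdvd (hup.map (mapRingHom (Int.castRingHom ℚ)))

lemma nodup_of_squarefree (u : ℤ[X]) (hu : Squarefree u) (hu0 : u ≠ 0) :
    (cx u).roots.Nodup := by
  have h1 : (u.map (Int.castRingHom ℚ)).Separable :=
    PerfectField.separable_iff_squarefree.mpr (squarefree_map_rat u hu hu0)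
  have h2 : (cx u).Separable := by
    have h3 := h1.map (f := (Rat.castHom ℂ : ℚ →+* ℂ))
    rw [Polynomial.map_map] at h3
    have : ((Rat.castHom ℂ).comp (Int.castRingHom ℚ)) = Int.castRingHom ℂ :=
      RingHom.ext_int _ _
    rw [this] at h3
    exact h3
  exact nodup_roots h2

lemma one_le_mm (f : ℤ[X]) (hf : f ≠ 0) : 1 ≤ (cx f).mahlerMeasure := by
  exact one_le_mahlerMeasure_of_ne_zero hf

end Pool.Agent.H589.Count
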